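import Pool.Agent.N399.DM.Col

set_option autoImplicit false
set_option linter.unusedSectionVars false

/-!
# Three, four and five hubs
-/

namespace Pool.Agent.N399.DM

open Finset Classical
open Pool.Agent.TH362.TF (F)

variable {V : Type} [Fintype V] {G : SimpleGraph V} {n : ℕ} {hb : Fin (n + 1) → V}
variable {A : Finset V} {l : V → Fin (n + 1)} {nx px : V → V}

/-- the three nonzero elements -/
def k1 : F := (1, 0)
def k2 : F := (0, 1)
def k3 : F := (1, 1)

theorem k3_ne : k3 ≠ 0 := by decide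

/-- the vertices which are neither hubs nor in the rims -/
noncomputable def Cn (G : SimpleGraph V) (hb : Fin (n + 1) → V) (A : Finset V) : Finset V :=
  univ.filter (fun x => (∃ y, G.Adj x y) ∧ (∀ c, x ≠ hb c) ∧ x ∉ A)

theorem mem_Cn {x : V} : x ∈ Cn G hb A ↔ (∃ y, G.Adj x y) ∧ (∀ c, x ≠ hb c) ∧ x ∉ A := by
  simp [Cn]

theorem Rim.card_A (hR : Rim G n hb A l nx px) :
    A.card = (n + 1) * (A.filter (fun x => l x = 0)).card := by
  rw [card_eq_sum_card_fiberwise (f := l) (t := univ) (fun _ _ => mem_coe.2 (mem_univ _)),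
    sum_congr rfl (fun a _ => hR.card_class a), sum_const, card_univ, Fintype.card_fin, smul_eq_mul]

theorem Rim.count (hR : Rim G n hb A l nx px) (hn : n ≤ 4) (hC : (Cn G hb A).card ≤ 1)
    (hbig : 18 ≤ (univ.filter (fun x => ∃ y, G.Adj x y)).card) :
    3 ≤ (A.filter (fun x => l x = 0)).card := by
  by_contra h
  push Not at h
  have h1 : (univ.filter (fun x => ∃ y, G.Adj x y)) ⊆ (univ.image hb ∪ A) ∪ Cn G hb A := by
    intro x hx
    rw [mem_union, mem_union]
    by_cases h1 : ∃ c, x = hb c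
    · obtain ⟨c, rfl⟩ := h1
      exact Or.inl (Or.inl (mem_image_of_mem _ (mem_univ _)))
    · push Not at h1
      by_cases h2 : x ∈ A
      · exact Or.inl (Or.inr h2)
      · exact Or.inr (mem_Cn.2 ⟨(mem_filter.1 hx).2, h1, h2⟩)
  have h2 := (card_le_card h1).trans ((card_union_le _ _).trans (Nat.add_le_add_right
    (card_union_le _ _) _))
  have h3 : (univ.image hb).card ≤ n + 1 := by
    refine card_image_le.trans ?_
    rw [card_univ, Fintype.card_fin]
  rw [hR.card_A] at h2
  have h4 : (n + 1) * (A.filter (fun x => l x = 0)).card ≤ 5 * 2 :=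
    Nat.mul_le_mul (by omega) (by omega)
  omega

theorem not_Lb (hR : Rim G n hb A l nx px) {x : V} (hx : x ∉ A) (a : Fin (n + 1)) :
    ¬ Lb G hb x a := fun h => hx (hR.mem x a h)

theorem Cn_empty (hG : Gt G) (hW : Wh G n hb) (hR : Rim G n hb A l nx px)
    (h1 : (1 : Fin (n + 1)) ≠ 0) (h3 : ∀ a : Fin (n + 1), a - 1 ≠ a + 1 + 1) : Cn G hb A = ∅ := by
  rw [eq_empty_iff_forall_notMem]
  intro x hx
  obtain ⟨⟨y, hy⟩, h4, h5⟩ := mem_Cn.1 hx
  obtain ⟨a, ha, -⟩ := center hG hW h1 hy h4 (not_Lb hR h5)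
  exact h3 a ha

/-- the inverse of the numbering of the hubs -/
noncomputable def hi (hb : Fin (n + 1) → V) : V → Fin (n + 1) := Function.invFun hb

theorem hi_hb (hW : Wh G n hb) (a : Fin (n + 1)) : hi hb (hb a) = a :=
  Function.leftInverse_invFun hW.inj a

/-- without other vertices, the ends of an edge outside of the rims are hubs -/
theorem hubs_of (hCn : Cn G hb A = ∅) {y z : V} (hy : y ∉ A) (hyz : G.Adj y z) :
    ∃ c, y = hb c := by
  by_contra h
  push Not at h
  have : y ∈ Cn G hb A := mem_Cn.2 ⟨⟨z, hyz⟩, h, hy⟩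
  rw [hCn] at this
  exact notMem_empty _ this

theorem u3_of (hCn : Cn G hb A = ∅) (u : V → V → F) :
    ∀ y, y ∉ A → (∀ c, y ≠ hb c) → ∑ z ∈ univ.filter (G.Adj y), u y z = 0 := by
  intro y hy hc
  refine sum_eq_zero fun z hz => ?_
  obtain ⟨c, h⟩ := hubs_of hCn hy (mem_filter.1 hz).2
  exact absurd h (hc c)

/-! ### Five hubs -/

section five
variable {hb : Fin (4 + 1) → V} {l : V → Fin (4 + 1)}

theorem adj5 (hW : Wh G 4 hb) (a c : Fin (4 + 1)) : G.Adj (hb a) (hb c) ↔ c = a + 2 ∨ c = a - 2 := by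
  constructor
  · intro h
    by_contra h1
    have h2 : ∀ a c : Fin (4 + 1), ¬ (c = a + 2 ∨ c = a - 2) → c = a ∨ c = a + 1 ∨ a = c + 1 := by
      decide
    rcases h2 a c h1 with h3 | h3 | h3
    · rw [h3] at h; exact G.loopless.irrefl _ h
    · rw [h3] at h; exact hW.non _ h
    · rw [h3] at h; exact hW.non _ h.symm
  · intro h
    have h2 : ∀ a c : Fin (4 + 1), (c = a + 2 ∨ c = a - 2) → c ≠ a ∧ c ≠ a + 1 ∧ c ≠ a - 1 := by
      decide
    obtain ⟨h3, h4, h5⟩ := h2 a c h
    exact hW.adj a c h3 h4 h5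

theorem five (hG : Gt G) (hW : Wh G 4 hb) (hR : Rim G 4 hb A l nx px)
    (hbig : 18 ≤ (univ.filter (fun x => ∃ y, G.Adj x y)).card) : GNZ G := by
  have hCn : Cn G hb A = ∅ := Cn_empty hG hW hR (by decide) (by decide)
  have hM := hR.count le_rfl (by rw [hCn, card_empty]; omega) hbig
  have h2n : (1 : Fin (4 + 1)) + 1 ≠ 0 := by decide
  -- the values on the edges between the hubs
  have key : ∀ uu : Fin (4 + 1) → F, (∀ a, uu a ≠ 0) → ∃ u : V → V → F,
      (∀ y z, y ∉ A → z ∉ A → G.Adj y z → u y z ≠ 0 ∧ u y z = u z y) ∧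
      ∀ a, ∑ z ∈ univ.filter (fun z => G.Adj (hb a) z ∧ z ∉ A), u (hb a) z = uu a + uu (a - 2) := by
    intro uu huu
    refine ⟨fun y z => if hi hb z = hi hb y + 2 then uu (hi hb y) else uu (hi hb z), ?_, ?_⟩
    · intro y z hy hz hyz
      obtain ⟨a, rfl⟩ := hubs_of hCn hy hyz
      obtain ⟨c, rfl⟩ := hubs_of hCn hz hyz.symm
      simp only [hi_hb hW]
      rcases (adj5 hW a c).1 hyz with h | h
      · subst h
        have h1 : a ≠ a + 2 + 2 := (by decide : ∀ a : Fin (4 + 1), a ≠ a + 2 + 2) a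
        rw [if_pos rfl, if_neg h1]
        exact ⟨huu a, rfl⟩
      · subst h
        have h1 : a - 2 ≠ a + 2 := (by decide : ∀ a : Fin (4 + 1), a - 2 ≠ a + 2) a
        have h2 : a = a - 2 + 2 := (by decide : ∀ a : Fin (4 + 1), a = a - 2 + 2) a
        rw [if_neg h1, if_pos h2]
        exact ⟨huu _, rfl⟩
    · intro a
      have h1 : univ.filter (fun z => G.Adj (hb a) z ∧ z ∉ A) = {hb (a + 2), hb (a - 2)} := by
        ext z
        simp only [mem_filter, mem_univ, true_and, mem_insert, mem_singleton]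
        constructor
        · rintro ⟨h1, h2⟩
          obtain ⟨c, rfl⟩ := hubs_of hCn h2 h1.symm
          rcases (adj5 hW a c).1 h1 with h | h
          · exact Or.inl (congrArg hb h)
          · exact Or.inr (congrArg hb h)
        · rintro (rfl | rfl)
          · exact ⟨(adj5 hW a _).2 (Or.inl rfl), hR.hub _⟩
          · exact ⟨(adj5 hW a _).2 (Or.inr rfl), hR.hub _⟩
      have h2 : a - 2 ≠ a + 2 := (by decide : ∀ a : Fin (4 + 1), a - 2 ≠ a + 2) a
      have h3 : hb (a + 2) ≠ hb (a - 2) := fun h => h2 (hW.inj h).symm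
      rw [h1, sum_insert (by simp [h3]), sum_singleton]
      simp only [hi_hb hW]
      rw [if_neg h2]
      simp
  by_cases hodd : (A.filter (fun x => l x = 0)).card % 2 = 0
  · obtain ⟨u, u1, u2⟩ := key (fun _ => k1) (fun _ => by decide)
    refine gnz_const hR h2n ![k1, k2, k1, k2, k3] (fun _ => 0) u (by decide) (by decide) (by decide)
      (fun a => smul_even hodd _) u1 (fun a => ?_) (u3_of hCn u)
    rw [u2 a]
    decide
  · have h1 : (A.filter (fun x => l x = 0)).card % 2 = 1 := by omega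
    obtain ⟨u, u1, u2⟩ := key ![k3, k2, k2, k1, k1] (by decide)
    obtain ⟨x, hx, y, hy, hxy, hyx⟩ := exists_two hR hM
    refine gnz_two hR h2n ![k1, k2, k1, k2, k3] ![k1, k2, k1, k3, k2] ![k1, k2, k3, k1, k2]
      ![k1, k2, k3, 0, k3] u hx hy hxy hyx (by decide) (by decide)
        ⟨by decide, by decide, Or.inl (by decide), Or.inl (by decide), by decide, by decide, by decide,
          by decide⟩ (fun a => ?_) u1
      (fun a => ?_) (u3_of hCn u)
    · rw [smul_odd h1]
      revert a; decide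
    · rw [u2 a]
      revert a; decide

end five

/-! ### Four hubs -/

section four
variable {hb : Fin (3 + 1) → V} {l : V → Fin (3 + 1)}

theorem adj4 (hW : Wh G 3 hb) (a c : Fin (3 + 1)) : G.Adj (hb a) (hb c) ↔ c = a + 2 := by
  constructor
  · intro h
    by_contra h1
    have h2 : ∀ a c : Fin (3 + 1), ¬ (c = a + 2) → c = a ∨ c = a + 1 ∨ a = c + 1 := by
      decide
    rcases h2 a c h1 with h3 | h3 | h3
    · rw [h3] at h; exact G.loopless.irrefl _ h
    · rw [h3] at h; exact hW.non _ h
    · rw [h3] at h; exact hW.non _ h.symm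
  · intro h
    have h2 : ∀ a c : Fin (3 + 1), c = a + 2 → c ≠ a ∧ c ≠ a + 1 ∧ c ≠ a - 1 := by
      decide
    obtain ⟨h3, h4, h5⟩ := h2 a c h
    exact hW.adj a c h3 h4 h5

theorem four (hG : Gt G) (hW : Wh G 3 hb) (hR : Rim G 3 hb A l nx px)
    (hbig : 18 ≤ (univ.filter (fun x => ∃ y, G.Adj x y)).card) : GNZ G := by
  have hCn : Cn G hb A = ∅ := Cn_empty hG hW hR (by decide) (by decide)
  have hM := hR.count (by norm_num) (by rw [hCn, card_empty]; omega) hbig
  have h2n : (1 : Fin (3 + 1)) + 1 ≠ 0 := by decide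
  have u1 : ∀ y z, y ∉ A → z ∉ A → G.Adj y z →
      (fun _ _ => k3 : V → V → F) y z ≠ 0 ∧ (fun _ _ => k3 : V → V → F) y z =
        (fun _ _ => k3 : V → V → F) z y := fun _ _ _ _ _ => ⟨k3_ne, rfl⟩
  have u2 : ∀ a, ∑ z ∈ univ.filter (fun z => G.Adj (hb a) z ∧ z ∉ A), k3 = k3 := by
    intro a
    have h1 : univ.filter (fun z => G.Adj (hb a) z ∧ z ∉ A) = {hb (a + 2)} := by
      ext z
      simp only [mem_filter, mem_univ, true_and, mem_singleton]
      constructor
      · rintro ⟨h1, h2⟩
        obtain ⟨c, rfl⟩ := hubs_of hCn h2 h1.symm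
        exact congrArg hb ((adj4 hW a c).1 h1)
      · rintro rfl
        exact ⟨(adj4 hW a _).2 rfl, hR.hub _⟩
    rw [h1, sum_singleton]
  by_cases hodd : (A.filter (fun x => l x = 0)).card % 2 = 1
  · refine gnz_const hR h2n ![k1, k2, k1, k2] ![k1, k2, k1, k2] (fun _ _ => k3) (by decide)
      (by decide) (by decide) (fun a => smul_odd hodd _) u1 (fun a => ?_) (u3_of hCn _)
    rw [u2 a]
    revert a; decide
  · have h1 : (A.filter (fun x => l x = 0)).card % 2 = 0 := by omega
    obtain ⟨x, hx, y, hy, hxy, hyx⟩ := exists_two hR hM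
    refine gnz_two hR h2n ![k1, k2, k1, k2] ![k3, k2, k3, k2] ![k1, k3, k1, k3]
      ![k2, k1, k2, k1] (fun _ _ => k3) hx hy hxy hyx (by decide) (by decide)
        ⟨by decide, by decide, Or.inl (by decide), Or.inl (by decide), by decide, by decide, by decide,
          by decide⟩
      (fun a => ?_) u1 (fun a => ?_) (u3_of hCn _)
    · rw [smul_even h1]
      revert a; decide
    · rw [u2 a]
      revert a; decide

end four

/-! ### Three hubs -/

section three
variable {hb : Fin (2 + 1) → V} {l : V → Fin (2 + 1)}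

theorem adj3 (hW : Wh G 2 hb) (a c : Fin (2 + 1)) : ¬ G.Adj (hb a) (hb c) := by
  intro h
  have h2 : ∀ a c : Fin (2 + 1), c = a ∨ c = a + 1 ∨ a = c + 1 := by
    decide
  rcases h2 a c with h3 | h3 | h3
  · rw [h3] at h; exact G.loopless.irrefl _ h
  · rw [h3] at h; exact hW.non _ h
  · rw [h3] at h; exact hW.non _ h.symm

theorem center3 (hG : Gt G) (hW : Wh G 2 hb) (hR : Rim G 2 hb A l nx px) {x : V}
    (hx : x ∈ Cn G hb A) (w : V) : G.Adj x w ↔ ∃ c, w = hb c := by
  obtain ⟨⟨y, hy⟩, h4, h5⟩ := mem_Cn.1 hx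
  obtain ⟨a, -, ha⟩ := center hG hW (by decide) hy h4 (not_Lb hR h5)
  rw [ha]
  constructor
  · rintro (h | h | h)
    · exact ⟨_, h⟩
    · exact ⟨_, h⟩
    · exact ⟨_, h⟩
  · rintro ⟨c, rfl⟩
    have h6 : ∀ a c : Fin (2 + 1), c = a ∨ c = a + 1 ∨ c = a - 1 := by decide
    rcases h6 a c with h | h | h
    · exact Or.inl (congrArg hb h)
    · exact Or.inr (Or.inl (congrArg hb h))
    · exact Or.inr (Or.inr (congrArg hb h))

theorem three (hG : Gt G) (hW : Wh G 2 hb) (hR : Rim G 2 hb A l nx px)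
    (hbig : 18 ≤ (univ.filter (fun x => ∃ y, G.Adj x y)).card) : GNZ G := by
  have h2n : (1 : Fin (2 + 1)) + 1 ≠ 0 := by decide
  have huniq : ∀ x ∈ Cn G hb A, ∀ y ∈ Cn G hb A, x = y := by
    intro x hx y hy
    by_contra hne
    exact hG.four x (hb 0) y (hb 1) hne (fun h => absurd (hW.inj h) (by decide))
      ((center3 hG hW hR hx _).2 ⟨0, rfl⟩) ((center3 hG hW hR hy _).2 ⟨0, rfl⟩).symm
      ((center3 hG hW hR hy _).2 ⟨1, rfl⟩) ((center3 hG hW hR hx _).2 ⟨1, rfl⟩).symm
  have hM := hR.count (by norm_num) (card_le_one.2 huniq) hbig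
  by_cases hCn : Cn G hb A = ∅
  · -- no other vertex
    have u1 : ∀ y z, y ∉ A → z ∉ A → G.Adj y z →
        (fun _ _ => k3 : V → V → F) y z ≠ 0 ∧ (fun _ _ => k3 : V → V → F) y z =
          (fun _ _ => k3 : V → V → F) z y := fun _ _ _ _ _ => ⟨k3_ne, rfl⟩
    have u2 : ∀ a, ∑ z ∈ univ.filter (fun z => G.Adj (hb a) z ∧ z ∉ A), k3 = 0 := by
      intro a
      have h1 : univ.filter (fun z => G.Adj (hb a) z ∧ z ∉ A) = ∅ := by
        rw [filter_eq_empty_iff]
        rintro z - ⟨h1, h2⟩
        obtain ⟨c, rfl⟩ := hubs_of hCn h2 h1.symm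
        exact adj3 hW a c h1
      rw [h1, sum_empty]
    by_cases hodd : (A.filter (fun x => l x = 0)).card % 2 = 0
    · refine gnz_const hR h2n ![k1, k2, k3] (fun _ => 0) (fun _ _ => k3) (by decide)
        (by decide) (by decide) (fun a => smul_even hodd _) u1 (fun a => ?_) (u3_of hCn _)
      rw [u2 a]
      decide
    · have h1 : (A.filter (fun x => l x = 0)).card % 2 = 1 := by omega
      have hit : ∀ b ∈ A.filter (fun x => l x = 0), nx^[2 + 1] b ∈ A.filter (fun x => l x = 0) := by
        intro b hb'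
        obtain ⟨h3, h4⟩ := mem_filter.1 hb'
        obtain ⟨h5, h6, -⟩ := hR.it_n (2 + 1) b h3
        refine mem_filter.2 ⟨h5, ?_⟩
        rw [h6, h4]
        decide
      have hnofix : ∀ b ∈ A.filter (fun x => l x = 0), nx^[2 + 1] b ≠ b := by
        intro b hb' h
        have h3 := (mem_filter.1 hb').1
        have h5 : nx (nx (nx b)) = b := h
        refine hG.tri b (nx b) (nx (nx b)) (hR.nadj _ h3) (hR.nadj _ (hR.nA _ h3)) ?_
        have h6 := hR.nadj _ (hR.nA _ (hR.nA _ h3))
        rw [h5] at h6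
        exact h6
      obtain ⟨x, hx, hx'⟩ : ∃ x ∈ A.filter (fun x => l x = 0),
          nx^[2 + 1] (nx^[2 + 1] x) ≠ x := by
        by_contra h
        push Not at h
        have h3 : ∑ _b ∈ A.filter (fun x => l x = 0), (1 : ZMod 2) = 0 := by
          refine sum_involution (fun b _ => nx^[2 + 1] b) (fun _ _ => by decide)
            (fun b hb' _ => hnofix b hb') (fun b hb' => hit b hb') (fun b hb' => h b hb')
        rw [sum_const, nsmul_eq_mul, mul_one] at h3
        have h4 := (ZMod.natCast_eq_zero_iff _ _).1 h3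
        omega
      refine gnz_two hR h2n ![k1, k2, k3] ![k2, k3, k1] ![k3, k1, k2] (fun _ => 0) (fun _ _ => k3)
        hx (hit x hx) (hnofix x hx).symm hx' (by decide) (by decide)
        ⟨by decide, by decide, Or.inr rfl, Or.inr rfl, by decide, by decide, by decide, by decide⟩
        (fun a => ?_) u1 (fun a => ?_) (u3_of hCn _)
      · rw [smul_odd h1]
        revert a; decide
      · rw [u2 a]
        decide
  · -- one vertex adjacent to the three hubs
    obtain ⟨c, hc⟩ := nonempty_iff_ne_empty.2 hCn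
    have hcA := (mem_Cn.1 hc).2.2
    have hch := (mem_Cn.1 hc).2.1
    have hother : ∀ y z, y ∉ A → G.Adj y z → (∃ a, y = hb a) ∨ y = c := by
      intro y z hy hyz
      by_contra h
      rw [not_or] at h
      push Not at h
      exact h.2 (huniq y (mem_Cn.2 ⟨⟨z, hyz⟩, h.1, hy⟩) c hc)
    have key : ∀ s : Fin (2 + 1) → F, (∀ a, s a ≠ 0) → s 0 + s 1 + s 2 = 0 → ∃ u : V → V → F,
        (∀ y z, y ∉ A → z ∉ A → G.Adj y z → u y z ≠ 0 ∧ u y z = u z y) ∧
        (∀ a, ∑ z ∈ univ.filter (fun z => G.Adj (hb a) z ∧ z ∉ A), u (hb a) z = s a) ∧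
        (∀ y, y ∉ A → (∀ c, y ≠ hb c) → ∑ z ∈ univ.filter (G.Adj y), u y z = 0) := by
      intro s hs hsum
      have e1 : ∀ a, (if hb a = c then s (hi hb c) else s (hi hb (hb a))) = s a := by
        intro a
        rw [if_neg (hch a).symm, hi_hb hW]
      refine ⟨fun y z => if y = c then s (hi hb z) else s (hi hb y), ?_, ?_, ?_⟩
      · intro y z hy hz hyz
        rcases hother y z hy hyz with ⟨a, rfl⟩ | rfl
        · rcases hother z _ hz hyz.symm with ⟨b, rfl⟩ | rfl
          · exact absurd hyz (adj3 hW a b)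
          · beta_reduce
            rw [if_neg (hch a).symm, if_pos rfl, hi_hb hW]
            exact ⟨hs a, rfl⟩
        · rcases hother z _ hz hyz.symm with ⟨b, rfl⟩ | rfl
          · beta_reduce
            rw [if_pos rfl, if_neg (hch b).symm, hi_hb hW]
            exact ⟨hs b, rfl⟩
          · exact absurd hyz (G.loopless.irrefl _)
      · intro a
        have h1 : univ.filter (fun z => G.Adj (hb a) z ∧ z ∉ A) = {c} := by
          ext z
          simp only [mem_filter, mem_univ, true_and, mem_singleton]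
          constructor
          · rintro ⟨h1, h2⟩
            rcases hother z _ h2 h1.symm with ⟨b, rfl⟩ | h
            · exact absurd h1 (adj3 hW a b)
            · exact h
          · rintro rfl
            exact ⟨((center3 hG hW hR hc _).2 ⟨a, rfl⟩).symm, hcA⟩
        rw [h1, sum_singleton]
        beta_reduce
        rw [if_neg (hch a).symm, hi_hb hW]
      · intro y hy hyh
        by_cases hyc : y = c
        · subst hyc
          have h1 : univ.filter (G.Adj y) = univ.image hb := by
            ext z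
            rw [mem_filter, center3 hG hW hR hc z, mem_image]
            constructor
            · rintro ⟨-, a, rfl⟩
              exact ⟨a, mem_univ _, rfl⟩
            · rintro ⟨a, -, rfl⟩
              exact ⟨mem_univ _, a, rfl⟩
          rw [h1, sum_image (fun a _ b _ h => hW.inj h)]
          simp only [if_true, hi_hb hW]
          rw [← hsum]
          exact Fin.sum_univ_three s
        · refine sum_eq_zero fun z hz => ?_
          rcases hother y z hy (mem_filter.1 hz).2 with ⟨a, h⟩ | h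
          · exact absurd h (hyh a)
          · exact absurd h hyc
    by_cases hodd : (A.filter (fun x => l x = 0)).card % 2 = 1
    · obtain ⟨u, u1, u2, u3⟩ := key ![k2, k3, k1] (by decide) (by decide)
      refine gnz_const hR h2n ![k1, k2, k3] ![k1, k2, k3] u (by decide)
        (by decide) (by decide) (fun a => smul_odd hodd _) u1 (fun a => ?_) u3
      rw [u2 a]
      revert a; decide
    · have h1 : (A.filter (fun x => l x = 0)).card % 2 = 0 := by omega
      obtain ⟨u, u1, u2, u3⟩ := key ![k2, k1, k3] (by decide) (by decide)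
      obtain ⟨x, hx, y, hy, hxy, hyx⟩ := exists_two hR hM
      refine gnz_two hR h2n ![k1, k2, k3] ![k2, k1, k3] ![k1, k3, k2]
        ![k3, k2, k1] u hx hy hxy hyx (by decide) (by decide)
        ⟨by decide, by decide, Or.inl (by decide), Or.inl (by decide), by decide, by decide, by decide,
          by decide⟩
        (fun a => ?_) u1 (fun a => ?_) u3
      · rw [smul_even h1]
        revert a; decide
      · rw [u2 a]
        revert a; decide

end three

/-- **the graph-theoretical part** -/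
theorem gnz_of_Ds (hG : Gt G) {D : Finset V} (hD : Ds G D)
    (hbig : 18 ≤ (univ.filter (fun x => ∃ y, G.Adj x y)).card) : GNZ G := by
  rcases exists_Wh hG hD (by omega) with ⟨hb, hW⟩ | ⟨hb, hW⟩ | ⟨hb, hW⟩
  · obtain ⟨A, l, nx, px, hR⟩ := exists_Rim hG hW (by decide)
    exact three hG hW hR hbig
  · obtain ⟨A, l, nx, px, hR⟩ := exists_Rim hG hW (by decide)
    exact four hG hW hR hbig
  · obtain ⟨A, l, nx, px, hR⟩ := exists_Rim hG hW (by decide)
    exact five hG hW hR hbig

end Pool.Agent.N399.DM
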