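import Pool.Agent.N399.DM.Flow

set_option autoImplicit false
set_option linter.unusedSectionVars false

/-!
# Colourings of the rims by blocks
-/

namespace Pool.Agent.N399.DM

open Finset Classical
open Pool.Agent.TH362.TF (F)

variable {V : Type} [Fintype V] {G : SimpleGraph V} {n : ℕ} {hb : Fin (n + 1) → V}
variable {A : Finset V} {l : V → Fin (n + 1)} {nx px : V → V}

theorem val_smul (a : Fin (n + 1)) : a.val • (1 : Fin (n + 1)) = a := by
  have h : ∀ m : ℕ, (m • (1 : Fin (n + 1))).val = m % (n + 1) := by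
    intro m
    induction m with
    | zero => simp
    | succ m ih =>
      rw [succ_nsmul, Fin.val_add, ih, Fin.val_one', ← Nat.add_mod]
  apply Fin.ext
  rw [h, Nat.mod_eq_of_lt a.isLt]

theorem Rim.it_n (hR : Rim G n hb A l nx px) (m : ℕ) : ∀ x ∈ A, nx^[m] x ∈ A ∧
    l (nx^[m] x) = l x + m • (1 : Fin (n + 1)) ∧ px^[m] (nx^[m] x) = x := by
  induction m with
  | zero => intro x hx; exact ⟨hx, by simp, rfl⟩
  | succ m ih =>
    intro x hx
    obtain ⟨h1, h2, h3⟩ := ih x hx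
    rw [Function.iterate_succ_apply', Function.iterate_succ_apply]
    refine ⟨hR.nA _ h1, ?_, ?_⟩
    · rw [hR.nl _ h1, h2, succ_nsmul, add_assoc]
    · rw [hR.pn _ h1, h3]

theorem Rim.it_p (hR : Rim G n hb A l nx px) (m : ℕ) : ∀ x ∈ A, px^[m] x ∈ A ∧
    l (px^[m] x) = l x - m • (1 : Fin (n + 1)) ∧ nx^[m] (px^[m] x) = x := by
  induction m with
  | zero => intro x hx; exact ⟨hx, by simp, rfl⟩
  | succ m ih =>
    intro x hx
    obtain ⟨h1, h2, h3⟩ := ih x hx
    rw [Function.iterate_succ_apply', Function.iterate_succ_apply]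
    refine ⟨hR.pA _ h1, ?_, ?_⟩
    · rw [hR.pl _ h1, h2, succ_nsmul, sub_sub]
    · rw [hR.np _ h1, h3]

/-- the first vertex of the block -/
def base (l : V → Fin (n + 1)) (px : V → V) (x : V) : V := px^[(l x).val] x

theorem Rim.base_mem (hR : Rim G n hb A l nx px) {x : V} (hx : x ∈ A) :
    base l px x ∈ A ∧ l (base l px x) = 0 ∧ nx^[(l x).val] (base l px x) = x := by
  obtain ⟨h1, h2, h3⟩ := hR.it_p (l x).val x hx
  refine ⟨h1, ?_, h3⟩
  unfold base
  rw [h2, val_smul, sub_self]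

theorem Rim.base_nx (hR : Rim G n hb A l nx px) {x : V} (hx : x ∈ A) (h : l x ≠ Fin.last n) :
    base l px (nx x) = base l px x := by
  unfold base
  have h1 : (l (nx x)).val = (l x).val + 1 := by
    rw [hR.nl x hx]
    exact Fin.val_add_one_of_lt (Fin.lt_last_iff_ne_last.2 h)
  rw [h1, Function.iterate_succ_apply, hR.pn x hx]

theorem Rim.base_last (hR : Rim G n hb A l nx px) {x : V} (hx : x ∈ A) (h : l x = Fin.last n) :
    base l px (nx x) = nx^[n + 1] (base l px x) ∧ l (nx x) = 0 := by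
  have h1 : l (nx x) = 0 := by
    rw [hR.nl x hx, h, Fin.last_add_one]
  refine ⟨?_, h1⟩
  have h2 := (hR.base_mem hx).2.2
  rw [h, Fin.val_last] at h2
  rw [Function.iterate_succ_apply', h2]
  unfold base
  rw [h1]
  rfl

theorem Rim.sum_block (hR : Rim G n hb A l nx px) (W : V → Fin (n + 1) → F) (a : Fin (n + 1)) :
    ∑ x ∈ A.filter (fun x => l x = a), W (base l px x) (l x) =
      ∑ b ∈ A.filter (fun x => l x = 0), W b a := by
  refine sum_bij' (fun x _ => px^[a.val] x) (fun b _ => nx^[a.val] b) ?_ ?_ ?_ ?_ ?_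
  · intro x hx
    rw [mem_filter] at hx ⊢
    obtain ⟨h1, h2, -⟩ := hR.it_p a.val x hx.1
    exact ⟨h1, by rw [h2, hx.2, val_smul, sub_self]⟩
  · intro b hb
    rw [mem_filter] at hb ⊢
    obtain ⟨h1, h2, -⟩ := hR.it_n a.val b hb.1
    exact ⟨h1, by rw [h2, hb.2, val_smul, zero_add]⟩
  · intro x hx
    exact (hR.it_p a.val x (mem_filter.1 hx).1).2.2
  · intro b hb
    exact (hR.it_n a.val b (mem_filter.1 hb).1).2.2
  · intro x hx
    have h1 := (mem_filter.1 hx).2
    unfold base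
    rw [h1]

/-- all classes have the same size -/
theorem Rim.card_class (hR : Rim G n hb A l nx px) (a : Fin (n + 1)) :
    (A.filter (fun x => l x = a)).card = (A.filter (fun x => l x = 0)).card := by
  refine card_bij' (fun x _ => px^[a.val] x) (fun b _ => nx^[a.val] b) ?_ ?_ ?_ ?_
  · intro x hx
    rw [mem_filter] at hx ⊢
    obtain ⟨h1, h2, -⟩ := hR.it_p a.val x hx.1
    exact ⟨h1, by rw [h2, hx.2, val_smul, sub_self]⟩
  · intro b hb
    rw [mem_filter] at hb ⊢
    obtain ⟨h1, h2, -⟩ := hR.it_n a.val b hb.1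
    exact ⟨h1, by rw [h2, hb.2, val_smul, zero_add]⟩
  · intro x hx
    exact (hR.it_p a.val x (mem_filter.1 hx).1).2.2
  · intro b hb
    exact (hR.it_n a.val b (mem_filter.1 hb).1).2.2

/-- flows from block colourings -/
theorem gnz_block (hR : Rim G n hb A l nx px) (h2n : (1 : Fin (n + 1)) + 1 ≠ 0)
    (W : V → Fin (n + 1) → F) (C : Fin (n + 1) → F) (u : V → V → F)
    (w1 : ∀ b ∈ A.filter (fun x => l x = 0), ∀ j, W b j ≠ 0)
    (w2 : ∀ b ∈ A.filter (fun x => l x = 0), ∀ j, j ≠ Fin.last n → W b j ≠ W b (j + 1))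
    (w3 : ∀ b ∈ A.filter (fun x => l x = 0), W b (Fin.last n) ≠ W (nx^[n + 1] b) 0)
    (hC : ∀ a, ∑ b ∈ A.filter (fun x => l x = 0), W b a = C a)
    (u1 : ∀ y z, y ∉ A → z ∉ A → G.Adj y z → u y z ≠ 0 ∧ u y z = u z y)
    (u2 : ∀ a, C a + C (a - 1) +
      ∑ z ∈ univ.filter (fun z => G.Adj (hb a) z ∧ z ∉ A), u (hb a) z = 0)
    (u3 : ∀ y, y ∉ A → (∀ c, y ≠ hb c) → ∑ z ∈ univ.filter (G.Adj y), u y z = 0) : GNZ G := by
  refine gnz_of hR h2n (fun x => W (base l px x) (l x)) u ?_ ?_ u1 ?_ u3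
  · intro x hx
    obtain ⟨h1, h2, -⟩ := hR.base_mem hx
    exact w1 _ (mem_filter.2 ⟨h1, h2⟩) _
  · intro x hx
    obtain ⟨h1, h2, -⟩ := hR.base_mem hx
    by_cases h : l x = Fin.last n
    · obtain ⟨h3, h4⟩ := hR.base_last hx h
      rw [h3, h4, h]
      exact w3 _ (mem_filter.2 ⟨h1, h2⟩)
    · rw [hR.base_nx hx h, hR.nl x hx]
      exact w2 _ (mem_filter.2 ⟨h1, h2⟩) _ h
  · intro a
    rw [hR.sum_block W a, hR.sum_block W (a - 1), hC, hC]
    exact u2 a

/-- the sum of the blocks if two of them are changed -/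
theorem sum_two {B : Finset V} {x y : V} (hx : x ∈ B) (hy : y ∈ B) (hxy : x ≠ y)
    (w X Y : F) : ∑ b ∈ B, (if b = x then X else if b = y then Y else w) =
      X + Y + (B.card • w) := by
  have h1 : ∀ b, (if b = x then X else if b = y then Y else w) =
      w + (if b = x then X + w else 0) + (if b = y then Y + w else 0) := by
    intro b
    by_cases h2 : b = x
    · have h3 : b ≠ y := fun h => hxy (h2.symm.trans h)
      rw [if_pos h2, if_pos h2, if_neg h3]
      have : ∀ X w : F, X = w + (X + w) + 0 := by decide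
      exact this _ _
    · by_cases h3 : b = y
      · rw [if_neg h2, if_pos h3, if_neg h2, if_pos h3]
        have : ∀ X w : F, X = w + 0 + (X + w) := by decide
        exact this _ _
      · rw [if_neg h2, if_neg h3, if_neg h2, if_neg h3]
        simp
  rw [sum_congr rfl (fun b _ => h1 b), sum_add_distrib, sum_add_distrib, sum_const,
    sum_ite_eq' B x, sum_ite_eq' B y, if_pos hx, if_pos hy]
  have : ∀ s X Y w : F, s + (X + w) + (Y + w) = X + Y + s := by decide
  exact this _ _ _ _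

theorem smul_even {m : ℕ} (h : m % 2 = 0) (w : F) : m • w = 0 := by
  obtain ⟨k, rfl⟩ := Nat.dvd_of_mod_eq_zero h
  rw [mul_comm, mul_smul, two_smul, F_self, smul_zero]

theorem smul_odd {m : ℕ} (h : m % 2 = 1) (w : F) : m • w = w := by
  obtain ⟨k, hk⟩ : ∃ k, m = 2 * k + 1 := ⟨m / 2, by omega⟩
  rw [hk, add_smul, one_smul, smul_even (by omega), zero_add]

/-- constant blocks -/
theorem gnz_const (hR : Rim G n hb A l nx px) (h2n : (1 : Fin (n + 1)) + 1 ≠ 0)
    (w : Fin (n + 1) → F) (C : Fin (n + 1) → F) (u : V → V → F)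
    (w1 : ∀ j, w j ≠ 0) (w2 : ∀ j, j ≠ Fin.last n → w j ≠ w (j + 1)) (w3 : w (Fin.last n) ≠ w 0)
    (hC : ∀ a, (A.filter (fun x => l x = 0)).card • w a = C a)
    (u1 : ∀ y z, y ∉ A → z ∉ A → G.Adj y z → u y z ≠ 0 ∧ u y z = u z y)
    (u2 : ∀ a, C a + C (a - 1) +
      ∑ z ∈ univ.filter (fun z => G.Adj (hb a) z ∧ z ∉ A), u (hb a) z = 0)
    (u3 : ∀ y, y ∉ A → (∀ c, y ≠ hb c) → ∑ z ∈ univ.filter (G.Adj y), u y z = 0) : GNZ G := by
  refine gnz_block hR h2n (fun _ => w) C u (fun _ _ => w1) (fun _ _ => w2) (fun _ _ => w3) ?_ u1 u2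
    u3
  intro a
  rw [sum_const, hC]

/-- blocks `X` at `x` and `Y` at `y`, where `x` is not the block after `y` -/
theorem gnz_two (hR : Rim G n hb A l nx px) (h2n : (1 : Fin (n + 1)) + 1 ≠ 0)
    (w X Y : Fin (n + 1) → F) (C : Fin (n + 1) → F) (u : V → V → F) {x y : V}
    (hx : x ∈ A.filter (fun x => l x = 0)) (hy : y ∈ A.filter (fun x => l x = 0)) (hxy : x ≠ y)
    (hyx : nx^[n + 1] y ≠ x)
    (w1 : ∀ j, w j ≠ 0 ∧ X j ≠ 0 ∧ Y j ≠ 0)
    (w2 : ∀ j, j ≠ Fin.last n → w j ≠ w (j + 1) ∧ X j ≠ X (j + 1) ∧ Y j ≠ Y (j + 1))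
    (w3 : w (Fin.last n) ≠ w 0 ∧ w (Fin.last n) ≠ X 0 ∧
      (w (Fin.last n) ≠ Y 0 ∨ nx^[n + 1] x = y) ∧ (X (Fin.last n) ≠ w 0 ∨ nx^[n + 1] x = y) ∧ X (Fin.last n) ≠ X 0 ∧ X (Fin.last n) ≠ Y 0 ∧
      Y (Fin.last n) ≠ w 0 ∧ Y (Fin.last n) ≠ Y 0)
    (hC : ∀ a, X a + Y a + (A.filter (fun x => l x = 0)).card • w a = C a)
    (u1 : ∀ y z, y ∉ A → z ∉ A → G.Adj y z → u y z ≠ 0 ∧ u y z = u z y)
    (u2 : ∀ a, C a + C (a - 1) +
      ∑ z ∈ univ.filter (fun z => G.Adj (hb a) z ∧ z ∉ A), u (hb a) z = 0)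
    (u3 : ∀ y, y ∉ A → (∀ c, y ≠ hb c) → ∑ z ∈ univ.filter (G.Adj y), u y z = 0) : GNZ G := by
  refine gnz_block hR h2n (fun b j => if b = x then X j else if b = y then Y j else w j) C u
    ?_ ?_ ?_ ?_ u1 u2 u3
  · intro b _ j
    obtain ⟨h1, h2, h3⟩ := w1 j
    split_ifs
    · exact h2
    · exact h3
    · exact h1
  · intro b _ j hj
    obtain ⟨h1, h2, h3⟩ := w2 j hj
    split_ifs
    · exact h2
    · exact h3
    · exact h1
  · intro b hbB
    obtain ⟨h1, h2, h3, h4, h5, h6, h7, h8⟩ := w3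
    by_cases b1 : b = x
    · rw [if_pos b1]
      split_ifs with b3 b4
      · exact h5
      · exact h6
      · rcases h4 with h4 | h4
        · exact h4
        · exact absurd (b1 ▸ h4) b4
    · rw [if_neg b1]
      by_cases b2 : b = y
      · rw [if_pos b2, b2, if_neg hyx]
        split_ifs
        · exact h8
        · exact h7
      · rw [if_neg b2]
        split_ifs with b3 b4
        · exact h2
        · rcases h3 with h3 | h3
          · exact h3
          · exfalso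
            have e1 := (hR.it_n (n + 1) b (mem_filter.1 hbB).1).2.2
            have e2 := (hR.it_n (n + 1) x (mem_filter.1 hx).1).2.2
            rw [b4] at e1
            rw [h3] at e2
            exact b1 (e1.symm.trans e2)
        · exact h1
  · intro a
    rw [sum_two hx hy hxy, hC]

/-- two blocks such that the first is not the one after the second -/
theorem exists_two (hR : Rim G n hb A l nx px)
    (h3 : 3 ≤ (A.filter (fun x => l x = 0)).card) :
    ∃ x ∈ A.filter (fun x => l x = 0), ∃ y ∈ A.filter (fun x => l x = 0), x ≠ y ∧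
      nx^[n + 1] y ≠ x := by
  obtain ⟨x, hx, y, hy, z, hz, hxy, hxz, hyz⟩ := two_lt_card.1 h3
  by_cases h : nx^[n + 1] y = x
  · refine ⟨x, hx, z, hz, hxz, fun h4 => hyz ?_⟩
    have h5 := (hR.it_n (n + 1) y (mem_filter.1 hy).1).2.2
    have h6 := (hR.it_n (n + 1) z (mem_filter.1 hz).1).2.2
    rw [h] at h5
    rw [h4] at h6
    exact h5.symm.trans h6
  · exact ⟨x, hx, y, hy, hxy, h⟩

end Pool.Agent.N399.DM
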