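import Mathlib

set_option autoImplicit false
set_option linter.unusedSectionVars false

/-!
# Dominating sets in which every vertex has at most two non-neighbours

In a graph with minimum degree three and without circuits with three or four edges such a set is an
independent set with three vertices (and possibly a vertex adjacent to these), two disjoint edges or
a circuit of length five.
-/

namespace Pool.Agent.N399.DM

open Finset Classical

variable {V : Type} [Fintype V]

/-- at least three neighbours, no circuits with three or four edges -/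
structure Gt (G : SimpleGraph V) : Prop where
  deg : ∀ x a, G.Adj x a → ∀ b, ∃ z, G.Adj x z ∧ z ≠ a ∧ z ≠ b
  tri : ∀ a b c, G.Adj a b → G.Adj b c → G.Adj c a → False
  four : ∀ a b c d, a ≠ c → b ≠ d → G.Adj a b → G.Adj b c → G.Adj c d → G.Adj d a → False

/-- a dominating set in which every vertex has at most two non-neighbours -/
structure Ds (G : SimpleGraph V) (D : Finset V) : Prop where
  dom : ∀ x, (∃ y, G.Adj x y) → x ∈ D ∨ ∃ d ∈ D, G.Adj x d
  two' : ∀ d ∈ D, ∀ W : Finset V, W ⊆ D → (∀ c ∈ W, c ≠ d ∧ ¬ G.Adj d c) → W.card ≤ 2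

/-- the hubs: `hb a` is adjacent to all hubs but `hb (a - 1)`, `hb a` and `hb (a + 1)`; they form a
dominating set -/
structure Wh (G : SimpleGraph V) (n : ℕ) (hb : Fin (n + 1) → V) : Prop where
  inj : Function.Injective hb
  non : ∀ a, ¬ G.Adj (hb a) (hb (a + 1))
  adj : ∀ a b, b ≠ a → b ≠ a + 1 → b ≠ a - 1 → G.Adj (hb a) (hb b)
  dom : ∀ x, (∃ y, G.Adj x y) → (∃ a, x = hb a) ∨ ∃ a, G.Adj x (hb a)

section
variable {G : SimpleGraph V} {D : Finset V}

theorem Ds.two (hD : Ds G D) : ∀ d ∈ D, (D.filter (fun c => c ≠ d ∧ ¬ G.Adj d c)).card ≤ 2 :=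
  fun d hd => hD.two' d hd _ (filter_subset _ _) fun _ hc => (mem_filter.1 hc).2

theorem Ds.three (hD : Ds G D) {d a b c : V} (hd : d ∈ D) (ha : a ∈ D) (hb : b ∈ D) (hc : c ∈ D)
    (had : a ≠ d) (hbd : b ≠ d) (hcd : c ≠ d) (na : ¬ G.Adj d a) (nb : ¬ G.Adj d b)
    (nc : ¬ G.Adj d c) (hab : a ≠ b) (hac : a ≠ c) (hbc : b ≠ c) : False := by
  have h1 := hD.two d hd
  have h2 : ({a, b, c} : Finset V) ⊆ D.filter (fun c => c ≠ d ∧ ¬ G.Adj d c) := by
    intro x hx
    simp only [mem_insert, mem_singleton] at hx
    rcases hx with rfl | rfl | rfl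
    · exact mem_filter.2 ⟨ha, had, na⟩
    · exact mem_filter.2 ⟨hb, hbd, nb⟩
    · exact mem_filter.2 ⟨hc, hcd, nc⟩
  have h3 := card_le_card h2
  rw [card_insert_of_notMem (by simp [hab, hac]), card_insert_of_notMem (by simp [hbc]),
    card_singleton] at h3
  omega

/-- the dominating set has at most five vertices -/
theorem Ds.card5 (hG : Gt G) (hD : Ds G D) : D.card ≤ 5 := by
  by_contra h
  push Not at h
  obtain ⟨d, hd⟩ := card_pos.1 (by omega : 0 < D.card)
  have h1 := hD.two d hd
  have h2 : (D.filter (fun c => c ≠ d ∧ ¬ G.Adj d c)).card +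
      (D.filter (fun c => ¬ (c ≠ d ∧ ¬ G.Adj d c))).card = D.card :=
    card_filter_add_card_filter_not _
  have h3 : 4 ≤ (D.filter (fun c => ¬ (c ≠ d ∧ ¬ G.Adj d c))).card := by omega
  have h4 : 3 ≤ ((D.filter (fun c => ¬ (c ≠ d ∧ ¬ G.Adj d c))).erase d).card := by
    rw [card_erase_of_mem (by simp [hd])]
    omega
  obtain ⟨a, ha, b, hb, c, hc, hab, hac, hbc⟩ := two_lt_card.1 h4
  rw [mem_erase, mem_filter] at ha hb hc
  have pa : G.Adj d a := by
    by_contra h5; exact ha.2.2 ⟨ha.1, h5⟩
  have pb : G.Adj d b := by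
    by_contra h5; exact hb.2.2 ⟨hb.1, h5⟩
  have pc : G.Adj d c := by
    by_contra h5; exact hc.2.2 ⟨hc.1, h5⟩
  have h6 : ∃ e ∈ D, e ∉ ({d, a, b, c} : Finset V) := by
    by_contra h7
    push Not at h7
    have := card_le_card (fun x hx => h7 x hx : D ⊆ {d, a, b, c})
    have h8 : ({d, a, b, c} : Finset V).card ≤ 4 := card_le_four
    omega
  obtain ⟨e, he, hne⟩ := h6
  simp only [mem_insert, mem_singleton, not_or] at hne
  obtain ⟨n1, n2, n3, n4⟩ := hne
  have qab : ¬ G.Adj a b := fun h => hG.tri d a b pa h pb.symm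
  have qac : ¬ G.Adj a c := fun h => hG.tri d a c pa h pc.symm
  have qbc : ¬ G.Adj b c := fun h => hG.tri d b c pb h pc.symm
  have ea : G.Adj a e := by
    by_contra h8
    exact hD.three ha.2.1 hb.2.1 hc.2.1 he hab.symm hac.symm n2 qab qac h8 hbc (Ne.symm n3)
      (Ne.symm n4)
  have eb : G.Adj b e := by
    by_contra h8
    exact hD.three hb.2.1 ha.2.1 hc.2.1 he hab hbc.symm n3 (fun h => qab h.symm) qbc h8 hac
      (Ne.symm n2) (Ne.symm n4)
  exact hG.four d a e b (Ne.symm n1) hab pa ea eb.symm pb.symm

/-- a vertex outside of the dominating set with exactly one neighbour in it -/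
structure TA (G : SimpleGraph V) (D : Finset V) (x i : V) : Prop where
  out : x ∉ D
  hub : i ∈ D
  adj : G.Adj x i
  uni : ∀ j ∈ D, G.Adj x j → j = i

theorem exists_TA (hG : Gt G) (hD : Ds G D)
    (hbig : 16 ≤ (univ.filter (fun x => ∃ y, G.Adj x y)).card) : ∃ x i, TA G D x i := by
  by_contra hno
  push Not at hno
  set X := univ.filter (fun x => (∃ y, G.Adj x y) ∧ x ∉ D) with hX
  have h1 : ∀ x ∈ X, ∃ p : V × V, p.1 ∈ D ∧ p.2 ∈ D ∧ p.1 ≠ p.2 ∧ G.Adj x p.1 ∧ G.Adj x p.2 := by
    intro x hx
    obtain ⟨-, hy, hxD⟩ := mem_filter.1 hx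
    rcases hD.dom x hy with h | ⟨d, hd, hxd⟩
    · exact absurd h hxD
    · by_contra h2
      push Not at h2
      refine hno x d ⟨hxD, hd, hxd, fun j hj hxj => ?_⟩
      by_contra hjd
      exact h2 (j, d) hj hd hjd hxj hxd
  choose! p hp using h1
  have h2 : X.card ≤ (D.powersetCard 2).card := by
    refine card_le_card_of_injOn (fun x => {(p x).1, (p x).2}) ?_ ?_
    · intro x hx
      obtain ⟨q1, q2, q3, -, -⟩ := hp x hx
      rw [mem_coe, mem_powersetCard]
      exact ⟨by
        intro z hz
        simp only [mem_insert, mem_singleton] at hz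
        rcases hz with rfl | rfl
        · exact q1
        · exact q2, card_pair q3⟩
    · intro x hx x' hx' hxx
      by_contra hne
      obtain ⟨q1, q2, q3, q4, q5⟩ := hp x hx
      obtain ⟨r1, r2, r3, r4, r5⟩ := hp x' hx'
      simp only at hxx
      have e1 : (p x).1 ∈ ({(p x').1, (p x').2} : Finset V) := by rw [← hxx]; simp
      have e2 : (p x).2 ∈ ({(p x').1, (p x').2} : Finset V) := by rw [← hxx]; simp
      simp only [mem_insert, mem_singleton] at e1 e2
      have f1 : G.Adj x' (p x).1 := by
        rcases e1 with h | h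
        · rw [h]; exact r4
        · rw [h]; exact r5
      have f2 : G.Adj x' (p x).2 := by
        rcases e2 with h | h
        · rw [h]; exact r4
        · rw [h]; exact r5
      exact hG.four x (p x).1 x' (p x).2 hne q3 q4 f1.symm f2 q5.symm
  have h5 := hD.card5 hG
  rw [card_powersetCard] at h2
  have h6 : (univ.filter (fun x => ∃ y, G.Adj x y)).card ≤ D.card + X.card := by
    refine (card_le_card ?_).trans (card_union_le D X)
    intro x hx
    rw [mem_union, hX, mem_filter]
    by_cases h : x ∈ D
    · exact Or.inl h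
    · exact Or.inr ⟨mem_univ _, (mem_filter.1 hx).2, h⟩
  have h7 : D.card.choose 2 ≤ Nat.choose 5 2 := Nat.choose_le_choose 2 h5
  have h8 : Nat.choose 5 2 = 10 := by decide
  omega

theorem TA.next (hG : Gt G) (hD : Ds G D) {x i : V} (h : TA G D x i) :
    ∃ y z j l, TA G D y j ∧ TA G D z l ∧ j ≠ l ∧ j ≠ i ∧ l ≠ i ∧ ¬ G.Adj i j ∧ ¬ G.Adj i l ∧
      ∀ d ∈ D, d ≠ i → ¬ G.Adj i d → d = j ∨ d = l := by
  obtain ⟨y, hy, hyi, -⟩ := hG.deg x i h.adj i
  obtain ⟨z, hz, hzi, hzy⟩ := hG.deg x i h.adj y
  have yD : y ∉ D := fun h1 => hyi (h.uni y h1 hy)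
  have zD : z ∉ D := fun h1 => hzi (h.uni z h1 hz)
  have step : ∀ w, G.Adj x w → w ≠ i → ∀ j ∈ D, G.Adj w j → j ≠ i ∧ ¬ G.Adj i j := by
    intro w hw hwi j hj hwj
    refine ⟨?_, fun h1 => ?_⟩
    · rintro rfl
      exact hG.tri x w j hw hwj h.adj.symm
    · exact hG.four x w j i (fun h2 => h.out (h2 ▸ hj)) hwi hw hwj h1.symm h.adj.symm
  obtain ⟨j, hj, hyj⟩ : ∃ j ∈ D, G.Adj y j := by
    rcases hD.dom y ⟨x, hy.symm⟩ with h1 | h1
    · exact absurd h1 yD
    · exact h1
  obtain ⟨l, hl, hzl⟩ : ∃ j ∈ D, G.Adj z j := by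
    rcases hD.dom z ⟨x, hz.symm⟩ with h1 | h1
    · exact absurd h1 zD
    · exact h1
  have jl : j ≠ l := by
    rintro rfl
    exact hG.four x y j z (fun h2 => h.out (h2 ▸ hj)) (Ne.symm hzy) hy hyj hzl.symm hz.symm
  obtain ⟨j1, j2⟩ := step y hy hyi j hj hyj
  obtain ⟨l1, l2⟩ := step z hz hzi l hl hzl
  have nn : ∀ d ∈ D, d ≠ i → ¬ G.Adj i d → d = j ∨ d = l := by
    intro d hd hdi hnd
    by_contra h1
    rw [not_or] at h1
    exact hD.three h.hub hj hl hd j1 l1 hdi j2 l2 hnd jl (Ne.symm h1.1) (Ne.symm h1.2)
  refine ⟨y, z, j, l, ⟨yD, hj, hyj, fun c hc hyc => ?_⟩, ⟨zD, hl, hzl, fun c hc hzc => ?_⟩, jl, j1,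
    l1, j2, l2, nn⟩
  · obtain ⟨c1, c2⟩ := step y hy hyi c hc hyc
    rcases nn c hc c1 c2 with h1 | h1
    · exact h1
    · exfalso
      rw [h1] at hyc
      exact hG.four x y l z (fun h2 => h.out (h2 ▸ hl)) (Ne.symm hzy) hy hyc hzl.symm hz.symm
  · obtain ⟨c1, c2⟩ := step z hz hzi c hc hzc
    rcases nn c hc c1 c2 with h1 | h1
    · exfalso
      rw [h1] at hzc
      exact hG.four x y j z (fun h2 => h.out (h2 ▸ hj)) (Ne.symm hzy) hy hyj hzc.symm hz.symm
    · exact h1

/-- the other non-neighbour -/
theorem TA.other (hG : Gt G) (hD : Ds G D) {x i i' : V} (h : TA G D x i) (hi' : i' ∈ D)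
    (hne : i' ≠ i) (hna : ¬ G.Adj i i') :
    ∃ x' m, TA G D x' m ∧ m ≠ i ∧ m ≠ i' ∧ ¬ G.Adj i m ∧
      ∀ d ∈ D, d ≠ i → ¬ G.Adj i d → d = i' ∨ d = m := by
  obtain ⟨y, z, j, l, h1, h2, jl, ji, li, nj, nl, nn⟩ := h.next hG hD
  rcases nn i' hi' hne hna with rfl | rfl
  · exact ⟨z, l, h2, li, jl.symm, nl, nn⟩
  · exact ⟨y, j, h1, ji, jl, nj, fun d a b c => (nn d a b c).symm⟩

/-- three, four or five hubs -/
theorem exists_Wh (hG : Gt G) (hD : Ds G D)
    (hbig : 16 ≤ (univ.filter (fun x => ∃ y, G.Adj x y)).card) :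
    (∃ hb, Wh G 2 hb) ∨ (∃ hb, Wh G 3 hb) ∨ ∃ hb, Wh G 4 hb := by
  obtain ⟨x0, i, h0⟩ := exists_TA hG hD hbig
  obtain ⟨y, z, j, l, h1, h2, jl, ji, li, nj, nl, nn⟩ := h0.next hG hD
  have hi := h0.hub
  have hj := h1.hub
  have hl := h2.hub
  obtain ⟨y', m, h3, mj, mi, njm, nnj⟩ := h1.other hG hD h0.hub ji.symm (fun h => nj h.symm)
  obtain ⟨z', m', h4, ml, mi', nlm, nnl⟩ := h2.other hG hD h0.hub li.symm (fun h => nl h.symm)
  have hm := h3.hub
  have hm' := h4.hub
  by_cases hml : m = l
  · -- three hubs
    subst hml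
    left
    have mj' : j = m' := by
      rcases nnl j hj jl (fun h => njm h.symm) with h | h
      · exact absurd h ji
      · exact h
    subst mj'
    refine ⟨![i, j, m], ?_, ?_, ?_, ?_⟩
    · intro a b hab
      fin_cases a <;> fin_cases b <;> simp_all [Matrix.cons_val_zero]
    · intro a
      fin_cases a
      · exact nj
      · exact njm
      · exact fun h => nl h.symm
    · intro a b h5 h6 h7
      exfalso
      revert h5 h6 h7
      revert a b
      decide
    · intro x hx
      by_contra hno
      rw [not_or] at hno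
      obtain ⟨q1, q2⟩ := hno
      push Not at q1 q2
      have q10 : x ≠ i := q1 0
      have q11 : x ≠ j := q1 1
      have q12 : x ≠ m := q1 2
      have q20 : ¬ G.Adj x i := q2 0
      have q21 : ¬ G.Adj x j := q2 1
      have q22 : ¬ G.Adj x m := q2 2
      have alld : ∀ d ∈ D, d ≠ i → d ≠ j → d ≠ m → G.Adj i d ∧ G.Adj j d := by
        intro d hd d1 d2 d3
        constructor
        · by_contra h5
          rcases nn d hd d1 h5 with h | h
          · exact d2 h
          · exact d3 h
        · by_contra h5
          rcases nnj d hd d2 h5 with h | h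
          · exact d1 h
          · exact d3 h
      rcases hD.dom x hx with h5 | ⟨d, hd, hxd⟩
      · exact q20 (alld x h5 q10 q11 q12).1.symm
      · have xD : x ∉ D := fun h5 => q20 (alld x h5 q10 q11 q12).1.symm
        have d1 : d ≠ i := fun h => q20 (h ▸ hxd)
        have d2 : d ≠ j := fun h => q21 (h ▸ hxd)
        have d3 : d ≠ m := fun h => q22 (h ▸ hxd)
        have hTA : TA G D x d := by
          refine ⟨xD, hd, hxd, fun c hc hxc => ?_⟩
          by_contra hcd
          have c1 : c ≠ i := fun h => q20 (h ▸ hxc)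
          have c2 : c ≠ j := fun h => q21 (h ▸ hxc)
          have c3 : c ≠ m := fun h => q22 (h ▸ hxc)
          exact hG.four x c i d q10 hcd hxc (alld c hc c1 c2 c3).1.symm (alld d hd d1 d2 d3).1
            hxd.symm
        obtain ⟨_, _, e, f, he, _, _, ed, _, ned, _, _⟩ := hTA.next hG hD
        obtain ⟨a1, a2⟩ := alld d hd d1 d2 d3
        have e1 : e ≠ i := fun h => ned (h ▸ a1.symm)
        have e2 : e ≠ j := fun h => ned (h ▸ a2.symm)
        have e3 : e ≠ m := by
          intro h
          apply ned
          rw [h]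
          by_contra h5
          rcases nnl d hd d3 (fun h6 => h5 h6.symm) with h | h
          · exact d1 h
          · exact d2 h
        obtain ⟨b1, b2⟩ := alld e he.hub e1 e2 e3
        exact hG.four i d j e ji.symm (Ne.symm ed) a1 a2.symm b2 b1.symm
  · right
    have aim : G.Adj i m := by
      by_contra h5
      rcases nn m hm mi h5 with h | h
      · exact mj h
      · exact hml h
    have ajl : G.Adj j l := by
      by_contra h5
      rcases nnj l hl jl.symm h5 with h | h
      · exact li h
      · exact hml h.symm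
    have mj' : m' ≠ j := by
      intro h
      rw [h] at nlm
      exact nlm ajl.symm
    have aim' : G.Adj i m' := by
      by_contra h5
      rcases nn m' hm' mi' h5 with h | h
      · exact mj' h
      · exact ml h
    by_cases hmm : m = m'
    · -- four hubs
      subst hmm
      left
      have sub : ∀ d ∈ D, d = i ∨ d = j ∨ d = m ∨ d = l := by
        intro d hd
        by_contra h5
        simp only [not_or] at h5
        obtain ⟨d1, d2, d3, d4⟩ := h5
        have p1 : G.Adj j d := by
          by_contra h5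
          rcases nnj d hd d2 h5 with h | h
          · exact d1 h
          · exact d3 h
        have p2 : G.Adj l d := by
          by_contra h5
          rcases nnl d hd d4 h5 with h | h
          · exact d1 h
          · exact d3 h
        exact hG.tri j l d ajl p2 p1.symm
      refine ⟨![i, j, m, l], ?_, ?_, ?_, ?_⟩
      · have a1 := ji.symm
        have a2 := mi.symm
        have a3 := li.symm
        have a4 := mj.symm
        intro a b hab
        fin_cases a <;> fin_cases b <;> simp_all [Matrix.cons_val_zero]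
      · intro a
        fin_cases a
        · exact nj
        · exact njm
        · exact fun h => nlm h.symm
        · exact fun h => nl h.symm
      · intro a b h5 h6 h7
        fin_cases a <;> fin_cases b
        all_goals first
          | exact absurd rfl h5
          | exact absurd rfl h6
          | exact absurd rfl h7
          | exact aim
          | exact aim.symm
          | exact ajl
          | exact ajl.symm
      · intro x hx
        rcases hD.dom x hx with h5 | ⟨d, hd, hxd⟩
        · left
          rcases sub x h5 with h | h | h | h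
          · exact ⟨0, h⟩
          · exact ⟨1, h⟩
          · exact ⟨2, h⟩
          · exact ⟨3, h⟩
        · right
          rcases sub d hd with h | h | h | h
          · exact ⟨0, h ▸ hxd⟩
          · exact ⟨1, h ▸ hxd⟩
          · exact ⟨2, h ▸ hxd⟩
          · exact ⟨3, h ▸ hxd⟩
    · -- five hubs
      right
      have nmm : ¬ G.Adj m m' := fun h => hG.tri i m m' aim h aim'.symm
      have ajm : G.Adj j m' := by
        by_contra h5
        rcases nnj m' hm' mj' h5 with h | h
        · exact mi' h
        · exact hmm h.symm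
      have alm : G.Adj l m := by
        by_contra h5
        rcases nnl m hm hml h5 with h | h
        · exact mi h
        · exact hmm h
      have sub : ∀ d ∈ D, d = i ∨ d = j ∨ d = m ∨ d = m' ∨ d = l := by
        intro d hd
        by_contra h5
        simp only [not_or] at h5
        obtain ⟨d1, d2, d3, d5, d4⟩ := h5
        have p1 : G.Adj j d := by
          by_contra h5
          rcases nnj d hd d2 h5 with h | h
          · exact d1 h
          · exact d3 h
        have p2 : G.Adj l d := by
          by_contra h5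
          rcases nnl d hd d4 h5 with h | h
          · exact d1 h
          · exact d5 h
        exact hG.tri j l d ajl p2 p1.symm
      refine ⟨![i, j, m, m', l], ?_, ?_, ?_, ?_⟩
      · have a1 := ji.symm
        have a2 := mi.symm
        have a3 := li.symm
        have a4 := mj.symm
        have a5 := mi'.symm
        have a6 := mj'.symm
        have a7 := ml.symm
        have a8 := Ne.symm hml
        have a9 := Ne.symm hmm
        have b1 := jl.symm
        intro a b hab
        fin_cases a <;> fin_cases b <;> simp_all [Matrix.cons_val_zero]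
      · intro a
        fin_cases a
        · exact nj
        · exact njm
        · exact nmm
        · exact fun h => nlm h.symm
        · exact fun h => nl h.symm
      · intro a b h5 h6 h7
        fin_cases a <;> fin_cases b
        all_goals first
          | exact absurd rfl h5
          | exact absurd rfl h6
          | exact absurd rfl h7
          | exact aim
          | exact aim.symm
          | exact aim'
          | exact aim'.symm
          | exact ajl
          | exact ajl.symm
          | exact ajm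
          | exact ajm.symm
          | exact alm
          | exact alm.symm
      · intro x hx
        rcases hD.dom x hx with h5 | ⟨d, hd, hxd⟩
        · left
          rcases sub x h5 with h | h | h | h | h
          · exact ⟨0, h⟩
          · exact ⟨1, h⟩
          · exact ⟨2, h⟩
          · exact ⟨3, h⟩
          · exact ⟨4, h⟩
        · right
          rcases sub d hd with h | h | h | h | h
          · exact ⟨0, h ▸ hxd⟩
          · exact ⟨1, h ▸ hxd⟩
          · exact ⟨2, h ▸ hxd⟩
          · exact ⟨3, h ▸ hxd⟩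
          · exact ⟨4, h ▸ hxd⟩

end

end Pool.Agent.N399.DM
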