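import Pool.Agent.N399.DM.Str
import Pool.Agent.TH362.TF.Defs

set_option autoImplicit false
set_option linter.unusedSectionVars false

/-!
# Flows on graphs with hubs and rims
-/

namespace Pool.Agent.N399.DM

open Finset Classical
open Pool.Agent.TH362.TF (F)

variable {V : Type} [Fintype V] {G : SimpleGraph V} {n : ℕ} {hb : Fin (n + 1) → V}

/-- a nowhere-zero flow over the group of order four -/
def GNZ (G : SimpleGraph V) : Prop := ∃ g : V → V → F,
  (∀ y z, G.Adj y z → g y z ≠ 0 ∧ g y z = g z y) ∧ ∀ y, ∑ z ∈ univ.filter (G.Adj y), g y z = 0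

theorem F_self (a : F) : a + a = 0 := by
  revert a; decide

theorem F_ne {a b : F} (h : a ≠ b) : a + b ≠ 0 := by
  revert h; revert a b; decide

section
variable {A : Finset V} {l : V → Fin (n + 1)} {nx px : V → V}

theorem Rim.hub (hR : Rim G n hb A l nx px) (a : Fin (n + 1)) : hb a ∉ A := fun h =>
  (hR.lb _ h).out a rfl

theorem Rim.nxpx (hR : Rim G n hb A l nx px) (h2n : (1 : Fin (n + 1)) + 1 ≠ 0) {x : V}
    (hx : x ∈ A) : nx x ≠ px x := by
  intro h
  have h1 := hR.nl x hx
  rw [h, hR.pl x hx, sub_eq_iff_eq_add, add_assoc] at h1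
  exact h2n (by simpa using h1)

theorem Rim.nnx (hR : Rim G n hb A l nx px) (h2n : (1 : Fin (n + 1)) + 1 ≠ 0) {x : V}
    (hx : x ∈ A) : x ≠ nx (nx x) := by
  intro h
  have h1 := hR.nl _ (hR.nA x hx)
  rw [← h, hR.nl x hx, add_assoc] at h1
  exact h2n (by simpa using h1)

/-- the sum over the previous class -/
theorem Rim.sum_px (hR : Rim G n hb A l nx px) (col : V → F) (a : Fin (n + 1)) :
    ∑ x ∈ A.filter (fun x => l x = a), col (px x) = ∑ x ∈ A.filter (fun x => l x = a - 1), col x := by
  refine sum_bij' (fun x _ => px x) (fun x _ => nx x) ?_ ?_ ?_ ?_ ?_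
  · intro x hx
    rw [mem_filter] at hx ⊢
    exact ⟨hR.pA x hx.1, by rw [hR.pl x hx.1, hx.2]⟩
  · intro x hx
    rw [mem_filter] at hx ⊢
    exact ⟨hR.nA x hx.1, by rw [hR.nl x hx.1, hx.2, sub_add_cancel]⟩
  · intro x hx
    exact hR.np x (mem_filter.1 hx).1
  · intro x hx
    exact hR.pn x (mem_filter.1 hx).1
  · intro x _
    rfl

theorem gnz_of (hR : Rim G n hb A l nx px) (h2n : (1 : Fin (n + 1)) + 1 ≠ 0)
    (col : V → F) (u : V → V → F)
    (c1 : ∀ x ∈ A, col x ≠ 0) (c2 : ∀ x ∈ A, col x ≠ col (nx x))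
    (u1 : ∀ y z, y ∉ A → z ∉ A → G.Adj y z → u y z ≠ 0 ∧ u y z = u z y)
    (u2 : ∀ a, ∑ x ∈ A.filter (fun x => l x = a), col x +
      ∑ x ∈ A.filter (fun x => l x = a - 1), col x +
      ∑ z ∈ univ.filter (fun z => G.Adj (hb a) z ∧ z ∉ A), u (hb a) z = 0)
    (u3 : ∀ y, y ∉ A → (∀ c, y ≠ hb c) → ∑ z ∈ univ.filter (G.Adj y), u y z = 0) : GNZ G := by
  have spoke : ∀ x ∈ A, col x + col (px x) ≠ 0 := by
    intro x hx
    have h1 := c2 (px x) (hR.pA x hx)
    rw [hR.np x hx] at h1
    rw [add_comm]
    exact F_ne h1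
  set g : V → V → F := fun y z => if y ∈ A then (if z ∈ A then (if z = nx y then col y else col z)
    else col y + col (px y)) else (if z ∈ A then col z + col (px z) else u y z) with hg
  have g1 : ∀ y z, y ∈ A → z ∈ A → z = nx y → g y z = col y := by
    intro y z h1 h2 h3
    simp only [hg]
    rw [if_pos h1, if_pos h2, if_pos h3]
  have g2 : ∀ y z, y ∈ A → z ∈ A → z ≠ nx y → g y z = col z := by
    intro y z h1 h2 h3
    simp only [hg]
    rw [if_pos h1, if_pos h2, if_neg h3]
  have g3 : ∀ y z, y ∈ A → z ∉ A → g y z = col y + col (px y) := by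
    intro y z h1 h2
    simp only [hg]
    rw [if_pos h1, if_neg h2]
  have g4 : ∀ y z, y ∉ A → z ∈ A → g y z = col z + col (px z) := by
    intro y z h1 h2
    simp only [hg]
    rw [if_neg h1, if_pos h2]
  have g5 : ∀ y z, y ∉ A → z ∉ A → g y z = u y z := by
    intro y z h1 h2
    simp only [hg]
    rw [if_neg h1, if_neg h2]
  refine ⟨g, ?_, ?_⟩
  · intro y z hyz
    by_cases hy : y ∈ A <;> by_cases hz : z ∈ A
    · rcases hR.all y hy z hyz with h | h | h
      · exact absurd (h ▸ hz) (hR.hub _)
      · have h1 : y ≠ nx z := by rw [h]; exact hR.nnx h2n hy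
        rw [g1 y z hy hz h, g2 z y hz hy h1]
        exact ⟨c1 y hy, rfl⟩
      · have h1 : z ≠ nx y := by rw [h]; exact (hR.nxpx h2n hy).symm
        have h2 : y = nx z := by rw [h, hR.np y hy]
        rw [g2 y z hy hz h1, g1 z y hz hy h2]
        exact ⟨c1 z hz, rfl⟩
    · rw [g3 y z hy hz, g4 z y hz hy]
      exact ⟨spoke y hy, rfl⟩
    · rw [g4 y z hy hz, g3 z y hz hy]
      exact ⟨spoke z hz, rfl⟩
    · rw [g5 y z hy hz, g5 z y hz hy]
      exact u1 y z hy hz hyz
  · intro y
    by_cases hy : y ∈ A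
    · have h1 : univ.filter (G.Adj y) = {hb (l y), nx y, px y} := by
        ext z
        simp only [mem_filter, mem_univ, true_and, mem_insert, mem_singleton]
        constructor
        · exact hR.all y hy z
        · rintro (rfl | rfl | rfl)
          · exact (hR.lb y hy).adj
          · exact hR.nadj y hy
          · exact hR.padj y hy
      have n1 : hb (l y) ≠ nx y := fun h => hR.hub (l y) (h ▸ hR.nA y hy)
      have n2 : hb (l y) ≠ px y := fun h => hR.hub (l y) (h ▸ hR.pA y hy)
      have n3 := hR.nxpx h2n hy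
      rw [h1, sum_insert (by simp [n1, n2]), sum_insert (by simp [n3]), sum_singleton,
        g3 y _ hy (hR.hub _), g1 y _ hy (hR.nA y hy) rfl, g2 y _ hy (hR.pA y hy) n3.symm]
      have h2 : ∀ a b : F, a + b + (a + b) = 0 := by decide
      exact h2 _ _
    · by_cases hh : ∃ c, y = hb c
      · obtain ⟨a, rfl⟩ := hh
        have h1 := u2 a
        rw [← hR.sum_px col a, ← sum_add_distrib] at h1
        rw [← h1, ← sum_filter_add_sum_filter_not (univ.filter (G.Adj (hb a))) (fun z => z ∈ A)]
        congr 1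
        · refine sum_congr ?_ ?_
          · ext z
            simp only [mem_filter, mem_univ, true_and]
            constructor
            · rintro ⟨h2, h3⟩
              exact ⟨h3, ((hR.lb z h3).uni a h2.symm).symm⟩
            · rintro ⟨h2, h3⟩
              have h4 := (hR.lb z h2).adj
              rw [h3] at h4
              exact ⟨h4.symm, h2⟩
          · intro z hz
            exact g4 _ z hy (mem_filter.1 hz).1
        · refine sum_congr ?_ ?_
          · ext z
            simp only [mem_filter, mem_univ, true_and]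
          · intro z hz
            exact g5 _ z hy (mem_filter.1 hz).2.2
      · push Not at hh
        rw [← u3 y hy hh]
        refine sum_congr rfl fun z hz => ?_
        have hyz := (mem_filter.1 hz).2
        refine g5 y z hy fun hzA => ?_
        rcases hR.all z hzA y hyz.symm with h | h | h
        · exact hh _ h
        · exact hy (h ▸ hR.nA z hzA)
        · exact hy (h ▸ hR.pA z hzA)

end

end Pool.Agent.N399.DM
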