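import Pool.Agent.N399.DM.Cases
import Pool.Agent.R890.FF.Min

set_option autoImplicit false
set_option linter.unusedSectionVars false

/-!
# Dominating sets in which every vertex has at most two non-neighbours: flows

Two vertices are close if they are joined by an edge or by two different paths with two edges.  If a
graph without cut edge has a dominating set in which every vertex is close to all other vertices of
the set but at most two, it has a nowhere-zero flow over the group of order four or a Petersen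
quotient.
-/

namespace Pool.Agent.N399.DM

open Finset Pool.Agent.TH362.TF Pool.Agent.R890.FF

variable {V E : Type} [Fintype V] [DecidableEq V] [Fintype E] [DecidableEq E]

/-- the edge `e` joins `x` and `y` -/
def Jn (s t : E → V) (e : E) (x y : V) : Prop := (s e = x ∧ t e = y) ∨ (s e = y ∧ t e = x)

/-- close vertices: joined by an edge or by two different paths with two edges -/
def Cls (s t : E → V) (x y : V) : Prop :=
  (∃ e, Jn s t e x y) ∨ ∃ (e f e' f' : E) (a b : V), (e ≠ e' ∨ f ≠ f') ∧ Jn s t e x a ∧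
    Jn s t f a y ∧ Jn s t e' x b ∧ Jn s t f' b y

/-- every vertex outside of `D` which is an end of an edge (not a loop) is close to a vertex of `D`,
and every vertex of `D` is close to all other vertices of `D` but at most two -/
def Dom (s t : E → V) (D : Finset V) : Prop :=
  (∀ x, x ∉ D → (∃ e, s e ≠ t e ∧ (s e = x ∨ t e = x)) → ∃ d ∈ D, Cls s t x d) ∧
    ∀ d ∈ D, ∀ W : Finset V, W ⊆ D → (∀ c ∈ W, c ≠ d ∧ ¬ Cls s t d c) → W.card ≤ 2

theorem Jn.map {s t : E → V} {e : E} {x y : V} (h : Jn s t e x y) (π : V → V) :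
    Jn (fun e => π (s e)) (fun e => π (t e)) e (π x) (π y) := by
  rcases h with ⟨h1, h2⟩ | ⟨h1, h2⟩
  · exact Or.inl ⟨congrArg π h1, congrArg π h2⟩
  · exact Or.inr ⟨congrArg π h1, congrArg π h2⟩

theorem Cls.map {s t : E → V} {x y : V} (h : Cls s t x y) (π : V → V) :
    Cls (fun e => π (s e)) (fun e => π (t e)) (π x) (π y) := by
  rcases h with ⟨e, h⟩ | ⟨e, f, e', f', a, b, h0, h1, h2, h3, h4⟩
  · exact Or.inl ⟨e, h.map π⟩
  · exact Or.inr ⟨e, f, e', f', π a, π b, h0, h1.map π, h2.map π, h3.map π, h4.map π⟩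

/-- the class is closed under the identification of vertices -/
theorem Dom.map {s t : E → V} {D : Finset V} (h : Dom s t D) (π : V → V) :
    Dom (fun e => π (s e)) (fun e => π (t e)) (D.image π) := by
  classical
  obtain ⟨h1, h2⟩ := h
  refine ⟨?_, ?_⟩
  · rintro x hx ⟨e, he, hex⟩
    have key : ∀ v, π v = x → (s e = v ∨ t e = v) → ∃ d ∈ D.image π,
        Cls (fun e => π (s e)) (fun e => π (t e)) x d := by
      intro v hv hev
      obtain ⟨d, hd, hc⟩ := h1 v (fun h => hx (hv ▸ mem_image_of_mem π h))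
        ⟨e, fun h => he (congrArg π h), hev⟩
      exact ⟨π d, mem_image_of_mem π hd, hv ▸ hc.map π⟩
    rcases hex with h | h
    · exact key _ h (Or.inl rfl)
    · exact key _ h (Or.inr rfl)
  · intro d' hd' W hW hWc
    obtain ⟨d, hd, rfl⟩ := mem_image.1 hd'
    have hc : ∀ c ∈ W, ∃ c' ∈ D, π c' = c := fun c hc => mem_image.1 (hW hc)
    choose! g hg1 hg2 using hc
    have h3 := h2 d hd (W.image g) (fun x hx => by
      obtain ⟨c, hc, rfl⟩ := mem_image.1 hx
      exact hg1 c hc) (fun x hx => by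
      obtain ⟨c, hc, rfl⟩ := mem_image.1 hx
      obtain ⟨n1, n2⟩ := hWc c hc
      refine ⟨fun h => n1 ?_, fun h => n2 ?_⟩
      · rw [← hg2 c hc, h]
      · have := h.map π
        rw [hg2 c hc] at this
        exact this)
    rwa [card_image_of_injOn] at h3
    intro c hc c' hc' h
    have := congrArg π h
    rwa [hg2 c hc, hg2 c' hc'] at this

section
variable {s t : E → V}

/-- the simple graph -/
def SG (s t : E → V) : SimpleGraph V where
  Adj x y := Nb s t univ x y
  symm := ⟨fun _ _ h => nb_comm h⟩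
  loopless := ⟨fun _ h => h.1 rfl⟩

theorem cls_nb (h : Mq s t univ) {x y : V} (hxy : x ≠ y) (hc : Cls s t x y) :
    Nb s t univ x y := by
  rcases hc with ⟨e, he⟩ | ⟨e, f, e', f', a, b, h0, h1, h2, h3, h4⟩
  · exact ⟨hxy.symm, e, mem_univ _, he⟩
  · by_cases hax : a = x
    · subst hax; exact ⟨hxy.symm, f, mem_univ _, h2⟩
    by_cases hay : a = y
    · subst hay; exact ⟨hxy.symm, e, mem_univ _, h1⟩
    by_cases hbx : b = x
    · subst hbx; exact ⟨hxy.symm, f', mem_univ _, h4⟩
    by_cases hby : b = y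
    · subst hby; exact ⟨hxy.symm, e', mem_univ _, h3⟩
    exfalso
    by_cases hab : a = b
    · subst hab
      rcases h0 with h0 | h0
      · exact h0 (h.nopar (Ne.symm hax) (mem_univ _) (mem_univ _) h1 h3)
      · exact h0 (h.nopar hay (mem_univ _) (mem_univ _) h2 h4)
    · refine h.four (a := x) (b := a) (c := y) (d := b) hxy hab ⟨hax, e, mem_univ _, h1⟩
        ⟨Ne.symm hay, f, mem_univ _, h2⟩ ⟨hby, f', mem_univ _, ends_comm' h4⟩
        ⟨Ne.symm hbx, e', mem_univ _, ends_comm' h3⟩

theorem gt_of (h : Mq s t univ) : Gt (SG s t) where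
  deg := by
    classical
    intro x a hxa b
    by_contra hno
    push Not at hno
    have h1 := h.nb_ne_one x
    have h2 := h.nb_ne_two x
    have h3 : univ.filter (Nb s t univ x) ⊆ {a, b} := by
      intro z hz
      rw [mem_insert, mem_singleton]
      by_cases hza : z = a
      · exact Or.inl hza
      · exact Or.inr (hno z (mem_filter.1 hz).2 hza)
    have h4 := (card_le_card h3).trans (card_le_two)
    have h5 : 0 < (univ.filter (Nb s t univ x)).card :=
      card_pos.2 ⟨a, mem_filter.2 ⟨mem_univ _, hxa⟩⟩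
    omega
  tri := fun _ _ _ h1 h2 h3 => h.tri h1 h2 h3
  four := fun _ _ _ _ hac hbd h1 h2 h3 h4 => h.four hac hbd h1 h2 h3 h4

theorem ds_of (h : Mq s t univ) {D : Finset V} (hD : Dom s t D) : Ds (SG s t) D where
  dom := by
    rintro x ⟨y, hne, e, -, he⟩
    by_cases hx : x ∈ D
    · exact Or.inl hx
    · right
      have h1 : s e ≠ t e := ends_ne he hne.symm
      obtain ⟨d, hd, hc⟩ := hD.1 x hx ⟨e, h1, he.imp And.left And.right⟩
      exact ⟨d, hd, cls_nb h (fun h => hx (h ▸ hd)) hc⟩
  two' := by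
    intro d hd W hW hWc
    refine hD.2 d hd W hW fun c hc => ?_
    obtain ⟨h1, h2⟩ := hWc c hc
    exact ⟨h1, fun h3 => h2 (cls_nb h h1.symm h3)⟩

theorem big_of (h : Mq s t univ) :
    18 ≤ (@Finset.filter V (fun x => ∃ y, (SG s t).Adj x y) (Classical.decPred _) univ).card := by
  classical
  have e0 : @Finset.filter V (fun x => ∃ y, (SG s t).Adj x y) (Classical.decPred _) univ =
      univ.filter (fun x => ∃ y, (SG s t).Adj x y) := by
    congr
  rw [e0]
  refine h.odd18.trans (card_le_card fun x hx => ?_)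
  rw [h.odd_nb x] at hx
  have h1 : (univ.filter (Nb s t univ x)).Nonempty := by
    rw [← card_pos]
    omega
  obtain ⟨y, hy⟩ := h1
  exact mem_filter.2 ⟨mem_univ _, y, (mem_filter.1 hy).2⟩

/-- a flow on the simple graph is a flow on the multigraph -/
theorem nz_of_gnz (h : Mq s t univ) (hg : GNZ (SG s t)) : NZ s t univ := by
  classical
  obtain ⟨g, g1, g2⟩ := hg
  refine ⟨fun e => if s e = t e then k1 else g (s e) (t e), ?_, ?_⟩
  · intro e _
    beta_reduce
    by_cases he : s e = t e
    · rw [if_pos he]; decide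
    · rw [if_neg he]
      exact (g1 _ _ ⟨Ne.symm he, e, mem_univ _, Or.inl ⟨rfl, rfl⟩⟩).1
  · intro v
    unfold Cons
    refine Eq.trans ?_ (g2 v)
    set T : Finset E := univ.filter (fun e => s e ≠ t e ∧ (s e = v ∨ t e = v)) with hT
    have e1 : ∑ e, ((if s e = v then (if s e = t e then k1 else g (s e) (t e)) else 0) +
        (if t e = v then (if s e = t e then k1 else g (s e) (t e)) else 0)) =
        ∑ e ∈ T, g (s e) (t e) := by
      rw [hT, sum_filter]
      refine sum_congr rfl fun e _ => ?_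
      by_cases he : s e = t e
      · have h0 : ¬ (s e ≠ t e ∧ (s e = v ∨ t e = v)) := fun h => h.1 he
        rw [if_neg h0, if_pos he, he]
        exact F_self _
      · rw [if_neg he]
        by_cases h1 : s e = v
        · have h2 : t e ≠ v := fun h2 => he (h1.trans h2.symm)
          rw [if_pos h1, if_neg h2, if_pos ⟨he, Or.inl h1⟩, add_zero]
        · by_cases h2 : t e = v
          · rw [if_neg h1, if_pos h2, if_pos ⟨he, Or.inr h2⟩, zero_add]
          · rw [if_neg h1, if_neg h2, if_neg (fun h => h.2.elim h1 h2), add_zero]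
    refine Eq.trans e1 ?_
    refine sum_bij (fun e _ => if s e = v then t e else s e) ?_ ?_ ?_ ?_
    · intro e he
      obtain ⟨-, h1, h2⟩ := mem_filter.1 he
      refine mem_filter.2 ⟨mem_univ _, ?_⟩
      by_cases h3 : s e = v
      · rw [if_pos h3]
        exact ⟨fun h4 => h1 (h3.trans h4.symm), e, mem_univ _, Or.inl ⟨h3, rfl⟩⟩
      · rw [if_neg h3]
        exact ⟨h3, e, mem_univ _, Or.inr ⟨rfl, h2.resolve_left h3⟩⟩
    · intro e he e' he' hee
      obtain ⟨-, h1, h2⟩ := mem_filter.1 he
      obtain ⟨-, h1', h2'⟩ := mem_filter.1 he'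
      by_cases h3 : s e = v <;> by_cases h3' : s e' = v
      · rw [if_pos h3, if_pos h3'] at hee
        exact h.nopar (a := v) (b := t e) (fun h4 => h1 (h3.trans h4)) (mem_univ _) (mem_univ _)
          (Or.inl ⟨h3, rfl⟩) (Or.inl ⟨h3', hee.symm⟩)
      · rw [if_pos h3, if_neg h3'] at hee
        exact h.nopar (a := v) (b := t e) (fun h4 => h1 (h3.trans h4)) (mem_univ _) (mem_univ _)
          (Or.inl ⟨h3, rfl⟩) (Or.inr ⟨hee.symm, h2'.resolve_left h3'⟩)
      · rw [if_neg h3, if_pos h3'] at hee
        exact h.nopar (a := v) (b := s e) (Ne.symm h3) (mem_univ _) (mem_univ _)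
          (Or.inr ⟨rfl, h2.resolve_left h3⟩) (Or.inl ⟨h3', hee.symm⟩)
      · rw [if_neg h3, if_neg h3'] at hee
        exact h.nopar (a := v) (b := s e) (Ne.symm h3) (mem_univ _) (mem_univ _)
          (Or.inr ⟨rfl, h2.resolve_left h3⟩) (Or.inr ⟨hee.symm, h2'.resolve_left h3'⟩)
    · intro z hz
      obtain ⟨-, hne, e, -, he⟩ := mem_filter.1 hz
      rcases he with ⟨h1, h2⟩ | ⟨h1, h2⟩
      · exact ⟨e, mem_filter.2 ⟨mem_univ _, by rw [h1, h2]; exact hne.symm, Or.inl h1⟩, by
          rw [if_pos h1, h2]⟩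
      · have h3 : s e ≠ v := by rw [h1]; exact hne
        exact ⟨e, mem_filter.2 ⟨mem_univ _, by rw [h1, h2]; exact hne, Or.inr h2⟩, by
          rw [if_neg h3, h1]⟩
    · intro e he
      obtain ⟨-, h1, h2⟩ := mem_filter.1 he
      by_cases h3 : s e = v
      · rw [if_pos h3, ← h3]
      · rw [if_neg h3, ← h2.resolve_left h3]
        exact (g1 _ _ ⟨Ne.symm h1, e, mem_univ _, Or.inl ⟨rfl, rfl⟩⟩).2

end

/-- **the theorem on flows** -/
theorem Dom.flow {s t : E → V} {D : Finset V} (hD : Dom s t D) (hN : N1 s t univ) :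
    NZ s t univ ∨ PQ s t univ := by
  classical
  by_contra hno
  rw [not_or] at hno
  obtain ⟨π, hM⟩ := exists_Mq s t univ hN hno.1 hno.2
  have hD' := hD.map π
  exact hM.nz (nz_of_gnz hM (gnz_of_Ds (gt_of hM) (ds_of hM hD') (by convert big_of hM)))

/-- the class of the graphs with such a dominating set -/
def Cl (s t : E → V) : Prop := ∃ D, Dom s t D

theorem Cl.map {s t : E → V} (h : Cl s t) (π : V → V) :
    Cl (fun e => π (s e)) (fun e => π (t e)) := by
  obtain ⟨D, hD⟩ := h
  exact ⟨_, hD.map π⟩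

theorem Cl.flow {s t : E → V} (h : Cl s t) (hN : N1 s t univ) : NZ s t univ ∨ PQ s t univ := by
  obtain ⟨D, hD⟩ := h
  exact hD.flow hN

end Pool.Agent.N399.DM
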