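import Pool.Agent.N399.DM.Ext

set_option autoImplicit false
set_option linter.unusedSectionVars false

/-!
# The rims between the hubs
-/

namespace Pool.Agent.N399.DM

open Finset Classical

variable {V : Type} [Fintype V] {G : SimpleGraph V} {n : ℕ} {hb : Fin (n + 1) → V}

/-- `x` is not a hub and `hb a` is its only neighbour among the hubs -/
structure Lb (G : SimpleGraph V) (hb : Fin (n + 1) → V) (x : V) (a : Fin (n + 1)) : Prop where
  out : ∀ c, x ≠ hb c
  adj : G.Adj x (hb a)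
  uni : ∀ c, G.Adj x (hb c) → c = a

theorem Lb.eq {x : V} {a b : Fin (n + 1)} (h : Lb G hb x a) (h' : Lb G hb x b) : a = b :=
  h'.uni a h.adj

theorem Wh.near (hW : Wh G n hb) {a b : Fin (n + 1)} (h : ¬ G.Adj (hb a) (hb b)) (hne : b ≠ a) :
    b = a + 1 ∨ b = a - 1 := by
  by_contra h1
  rw [not_or] at h1
  exact h (hW.adj a b hne h1.1 h1.2)

theorem Lb.step (hG : Gt G) (hW : Wh G n hb) {x : V} {a : Fin (n + 1)} (h : Lb G hb x a)
    {z : V} (hz : G.Adj x z) (hza : z ≠ hb a) :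
    (∀ c, z ≠ hb c) ∧ (∃ c, G.Adj z (hb c)) ∧
      ∀ c, G.Adj z (hb c) → c = a + 1 ∨ c = a - 1 := by
  have h1 : ∀ c, z ≠ hb c := by
    rintro c rfl
    exact hza (congrArg hb (h.uni c hz))
  refine ⟨h1, ?_, ?_⟩
  · rcases hW.dom z ⟨x, hz.symm⟩ with ⟨c, hc⟩ | h2
    · exact absurd hc (h1 c)
    · exact h2
  · intro c hc
    have hca : c ≠ a := by
      rintro rfl
      exact hG.tri x z (hb c) hz hc h.adj.symm
    exact hW.near (fun h2 => hG.four x z (hb c) (hb a) (h.out c) hza hz hc h2.symm h.adj.symm) hca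

/-- the two other neighbours -/
theorem Lb.next (hG : Gt G) (hW : Wh G n hb) {x : V} {a : Fin (n + 1)}
    (h : Lb G hb x a) : ∃ y z, G.Adj x y ∧ G.Adj x z ∧ Lb G hb y (a + 1) ∧ Lb G hb z (a - 1) ∧
      ∀ w, G.Adj x w → w = hb a ∨ w = y ∨ w = z := by
  obtain ⟨y, hy, hya, -⟩ := hG.deg x (hb a) h.adj (hb a)
  obtain ⟨z, hz, hza, hzy⟩ := hG.deg x (hb a) h.adj y
  obtain ⟨y1, ⟨c, hc⟩, y2⟩ := h.step hG hW hy hya
  obtain ⟨z1, ⟨d, hd⟩, z2⟩ := h.step hG hW hz hza
  have uniq : ∀ w w' c, G.Adj x w → G.Adj x w' → G.Adj w (hb c) → G.Adj w' (hb c) → w = w' := by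
    intro w w' c h1 h2 h3 h4
    by_contra hne
    exact hG.four x w (hb c) w' (h.out c) hne h1 h3 h4.symm h2.symm
  have hcd : c ≠ d := by
    rintro rfl
    exact hzy (uniq z y c hz hy hd hc)
  have key : ∀ (y z : V) (c d : Fin (n + 1)), G.Adj x y → G.Adj x z → z ≠ y → y ≠ hb a →
      z ≠ hb a → G.Adj y (hb c) → G.Adj z (hb d) → c ≠ d → c = a + 1 → d = a - 1 →
      ∃ y z, G.Adj x y ∧ G.Adj x z ∧ Lb G hb y (a + 1) ∧ Lb G hb z (a - 1) ∧
      ∀ w, G.Adj x w → w = hb a ∨ w = y ∨ w = z := by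
    intro y z c d hy hz hzy hya hza hc hd hcd hc' hd'
    obtain ⟨y1, -, y2⟩ := h.step hG hW hy hya
    obtain ⟨z1, -, z2⟩ := h.step hG hW hz hza
    refine ⟨y, z, hy, hz, ⟨y1, hc' ▸ hc, fun e he => ?_⟩, ⟨z1, hd' ▸ hd, fun e he => ?_⟩,
      fun w hw => ?_⟩
    · rcases y2 e he with h1 | h1
      · exact h1
      · exfalso
        exact hzy (uniq z y e hz hy (by rw [h1, ← hd']; exact hd) he)
    · rcases z2 e he with h1 | h1
      · exfalso
        exact hzy (uniq z y e hz hy he (by rw [h1, ← hc']; exact hc))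
      · exact h1
    · by_cases hwa : w = hb a
      · exact Or.inl hwa
      · right
        obtain ⟨w1, ⟨e, he⟩, w2⟩ := h.step hG hW hw hwa
        rcases w2 e he with h1 | h1
        · left
          exact uniq w y e hw hy he (by rw [h1, ← hc']; exact hc)
        · right
          exact uniq w z e hw hz he (by rw [h1, ← hd']; exact hd)
  rcases y2 c hc with h1 | h1 <;> rcases z2 d hd with h2 | h2
  · exact absurd (h1.trans h2.symm) hcd
  · exact key y z c d hy hz hzy hya hza hc hd hcd h1 h2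
  · exact key z y d c hz hy (Ne.symm hzy) hza hya hd hc (Ne.symm hcd) h2 h1
  · exact absurd (h1.trans h2.symm) hcd

/-- a vertex which is neither a hub nor in a rim: this happens only for three hubs -/
theorem center (hG : Gt G) (hW : Wh G n hb) (h1n : (1 : Fin (n + 1)) ≠ 0) {x y : V}
    (hxy : G.Adj x y) (hx : ∀ c, x ≠ hb c) (hn : ∀ a, ¬ Lb G hb x a) :
    ∃ a : Fin (n + 1), a - 1 = a + 1 + 1 ∧ ∀ w, G.Adj x w ↔ w = hb a ∨ w = hb (a + 1) ∨
      w = hb (a - 1) := by
  obtain ⟨a, ha⟩ : ∃ a, G.Adj x (hb a) := by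
    rcases hW.dom x ⟨y, hxy⟩ with ⟨c, hc⟩ | h
    · exact absurd hc (hx c)
    · exact h
  obtain ⟨b, hb1, hba⟩ : ∃ b, G.Adj x (hb b) ∧ b ≠ a := by
    by_contra h
    push Not at h
    exact hn a ⟨hx, ha, h⟩
  have hnab : ¬ G.Adj (hb a) (hb b) := fun h => hG.tri x (hb a) (hb b) ha h hb1.symm
  -- two consecutive hubs
  obtain ⟨a, h1, h2⟩ : ∃ a, G.Adj x (hb a) ∧ G.Adj x (hb (a + 1)) := by
    rcases hW.near hnab hba with h | h
    · exact ⟨a, ha, h ▸ hb1⟩
    · refine ⟨b, hb1, ?_⟩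
      rw [h, sub_add_cancel]
      exact ha
  have hne1 : a + 1 ≠ a := by
    intro h
    exact h1n (by simpa using h)
  have hne2 : hb a ≠ hb (a + 1) := fun h => hne1 (hW.inj h).symm
  -- another neighbour
  have third : ∀ z, G.Adj x z → z ≠ hb a → z ≠ hb (a + 1) →
      ∃ c, (z = hb c ∨ (∀ c, z ≠ hb c) ∧ G.Adj z (hb c)) ∧ c = a - 1 ∧ c = a + 1 + 1 := by
    intro z hz hza hza'
    by_cases hzh : ∃ c, z = hb c
    · obtain ⟨c, rfl⟩ := hzh
      have ca : c ≠ a := fun h => hza (congrArg hb h)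
      have ca' : c ≠ a + 1 := fun h => hza' (congrArg hb h)
      refine ⟨c, Or.inl rfl, ?_, ?_⟩
      · rcases hW.near (a := a) (b := c) (fun h => hG.tri x (hb a) (hb c) h1 h hz.symm) ca with h | h
        · exact absurd h ca'
        · exact h
      · rcases hW.near (a := a + 1) (b := c) (fun h => hG.tri x (hb (a + 1)) (hb c) h2 h hz.symm)
          ca' with h | h
        · exact h
        · exact absurd (by rw [h, add_sub_cancel_right]) ca
    · push Not at hzh
      obtain ⟨c, hc⟩ : ∃ c, G.Adj z (hb c) := by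
        rcases hW.dom z ⟨x, hz.symm⟩ with ⟨c, hc⟩ | h
        · exact absurd hc (hzh c)
        · exact h
      have ca : c ≠ a := by
        rintro rfl
        exact hG.tri x z (hb c) hz hc h1.symm
      have ca' : c ≠ a + 1 := by
        intro h
        rw [h] at hc
        exact hG.tri x z (hb (a + 1)) hz hc h2.symm
      refine ⟨c, Or.inr ⟨hzh, hc⟩, ?_, ?_⟩
      · rcases hW.near (a := a) (b := c) (fun h => hG.four x z (hb c) (hb a) (hx c) hza hz hc
          h.symm h1.symm) ca with h | h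
        · exact absurd h ca'
        · exact h
      · rcases hW.near (a := a + 1) (b := c) (fun h => hG.four x z (hb c) (hb (a + 1)) (hx c) hza'
          hz hc h.symm h2.symm) ca' with h | h
        · exact h
        · exact absurd (by rw [h, add_sub_cancel_right]) ca
  obtain ⟨z, hz, hza, hza'⟩ := hG.deg x (hb a) h1 (hb (a + 1))
  obtain ⟨c, -, hc1, hc2⟩ := third z hz hza hza'
  have h3 : a - 1 = a + 1 + 1 := hc1.symm.trans hc2
  have h4 : ∀ z, G.Adj x z → z ≠ hb a → z ≠ hb (a + 1) → z = hb (a - 1) := by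
    intro z hz hza hza'
    obtain ⟨c, hc, hc1, hc2⟩ := third z hz hza hza'
    rcases hc with hc | ⟨hc3, hc4⟩
    · rw [hc, hc1]
    · exfalso
      have hL : Lb G hb z (a - 1) := by
        refine ⟨hc3, hc1 ▸ hc4, fun d hd => ?_⟩
        obtain ⟨c', hc', hc1', -⟩ := third z hz hza hza'
        by_contra hne
        have d1 : d ≠ a := by
          rintro rfl
          exact hG.tri x z (hb d) hz hd h1.symm
        have d2 : d ≠ a + 1 := by
          intro h
          rw [h] at hd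
          exact hG.tri x z (hb (a + 1)) hz hd h2.symm
        rcases hW.near (a := a) (b := d) (fun h => hG.four x z (hb d) (hb a) (hx d) hza hz hd
          h.symm h1.symm) d1 with h | h
        · exact d2 h
        · exact hne h
      obtain ⟨p, q, -, -, hp, hq, hall⟩ := hL.next hG hW
      rcases hall x hz.symm with h | h | h
      · exact hx _ h
      · rw [← h] at hp
        have e1 := hp.uni _ h1
        have e2 := hp.uni _ h2
        exact hne1 (e2.trans e1.symm)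
      · rw [← h] at hq
        have e1 := hq.uni _ h1
        have e2 := hq.uni _ h2
        exact hne1 (e2.trans e1.symm)
  have h5 : z = hb (a - 1) := h4 z hz hza hza'
  refine ⟨a, h3, fun w => ⟨fun hw => ?_, ?_⟩⟩
  · by_cases w1 : w = hb a
    · exact Or.inl w1
    · by_cases w2 : w = hb (a + 1)
      · exact Or.inr (Or.inl w2)
      · exact Or.inr (Or.inr (h4 w hw w1 w2))
  · rintro (rfl | rfl | rfl)
    · exact h1
    · exact h2
    · rw [← h5]; exact hz

/-- the rims -/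
structure Rim (G : SimpleGraph V) (n : ℕ) (hb : Fin (n + 1) → V) (A : Finset V)
    (l : V → Fin (n + 1)) (nx px : V → V) : Prop where
  lb : ∀ x ∈ A, Lb G hb x (l x)
  mem : ∀ x a, Lb G hb x a → x ∈ A
  nA : ∀ x ∈ A, nx x ∈ A
  pA : ∀ x ∈ A, px x ∈ A
  nl : ∀ x ∈ A, l (nx x) = l x + 1
  pl : ∀ x ∈ A, l (px x) = l x - 1
  nadj : ∀ x ∈ A, G.Adj x (nx x)
  padj : ∀ x ∈ A, G.Adj x (px x)
  pn : ∀ x ∈ A, px (nx x) = x
  np : ∀ x ∈ A, nx (px x) = x
  all : ∀ x ∈ A, ∀ w, G.Adj x w → w = hb (l x) ∨ w = nx x ∨ w = px x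

theorem exists_Rim (hG : Gt G) (hW : Wh G n hb) (h2n : (1 : Fin (n + 1)) + 1 ≠ 0) :
    ∃ A l nx px, Rim G n hb A l nx px := by
  have h1 : ∀ x, ∃ p : Fin (n + 1) × V × V, (∃ a, Lb G hb x a) → Lb G hb x p.1 ∧
      G.Adj x p.2.1 ∧ G.Adj x p.2.2 ∧ Lb G hb p.2.1 (p.1 + 1) ∧ Lb G hb p.2.2 (p.1 - 1) ∧
      ∀ w, G.Adj x w → w = hb p.1 ∨ w = p.2.1 ∨ w = p.2.2 := by
    intro x
    by_cases h : ∃ a, Lb G hb x a
    · obtain ⟨a, ha⟩ := h
      obtain ⟨y, z, h1, h2, h3, h4, h5⟩ := ha.next hG hW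
      exact ⟨(a, y, z), fun _ => ⟨ha, h1, h2, h3, h4, h5⟩⟩
    · exact ⟨(0, x, x), fun h' => absurd h' h⟩
  choose p hp using h1
  set l : V → Fin (n + 1) := fun x => (p x).1 with hl
  set nx : V → V := fun x => (p x).2.1 with hnx
  set px : V → V := fun x => (p x).2.2 with hpx
  set A : Finset V := univ.filter (fun x => ∃ a, Lb G hb x a) with hA
  have mA : ∀ x, x ∈ A → (∃ a, Lb G hb x a) := fun x hx => (mem_filter.1 hx).2
  have mA' : ∀ x a, Lb G hb x a → x ∈ A := fun x a hx => mem_filter.2 ⟨mem_univ _, a, hx⟩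
  have q1 : ∀ x ∈ A, Lb G hb x (l x) := fun x hx => (hp x (mA x hx)).1
  have q2 : ∀ x ∈ A, G.Adj x (nx x) := fun x hx => (hp x (mA x hx)).2.1
  have q3 : ∀ x ∈ A, G.Adj x (px x) := fun x hx => (hp x (mA x hx)).2.2.1
  have q4 : ∀ x ∈ A, Lb G hb (nx x) (l x + 1) := fun x hx => (hp x (mA x hx)).2.2.2.1
  have q5 : ∀ x ∈ A, Lb G hb (px x) (l x - 1) := fun x hx => (hp x (mA x hx)).2.2.2.2.1
  have q6 : ∀ x ∈ A, ∀ w, G.Adj x w → w = hb (l x) ∨ w = nx x ∨ w = px x := fun x hx =>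
    (hp x (mA x hx)).2.2.2.2.2
  have nA : ∀ x ∈ A, nx x ∈ A := fun x hx => mA' _ _ (q4 x hx)
  have pA : ∀ x ∈ A, px x ∈ A := fun x hx => mA' _ _ (q5 x hx)
  have nl : ∀ x ∈ A, l (nx x) = l x + 1 := fun x hx => (q1 _ (nA x hx)).eq (q4 x hx)
  have pl : ∀ x ∈ A, l (px x) = l x - 1 := fun x hx => (q1 _ (pA x hx)).eq (q5 x hx)
  refine ⟨A, l, nx, px, q1, mA', nA, pA, nl, pl, q2, q3, ?_, ?_, q6⟩
  · intro x hx
    have h1 := q6 (nx x) (nA x hx) x (q2 x hx).symm
    rcases h1 with h | h | h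
    · exact absurd h ((q1 x hx).out _)
    · exfalso
      have h3 := nl _ (nA x hx)
      rw [← h, nl x hx, add_assoc] at h3
      exact h2n (by simpa using h3)
    · exact h.symm
  · intro x hx
    have h1 := q6 (px x) (pA x hx) x (q3 x hx).symm
    rcases h1 with h | h | h
    · exact absurd h ((q1 x hx).out _)
    · exact h.symm
    · exfalso
      have h3 := pl _ (pA x hx)
      rw [← h, pl x hx, sub_sub] at h3
      exact h2n (sub_eq_self.1 h3.symm)

end Pool.Agent.N399.DM
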